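import Mathlib

/-!
# H94D, part M1 of Theorem D: the formal identity

`A(h_s(q) - b h_s(q^p))` expanded in powers of `b`.
-/

namespace H94D

open Finset PowerSeries

variable {R : Type*} [CommRing R]

/-- Coefficients of `f(q) g(q^p)`. -/
theorem coeff_mul_expand (p : ℕ) (hp : p ≠ 0) (f g : PowerSeries R) (m : ℕ) :
    coeff m (f * expand p hp g) = ∑ j ∈ range (m / p + 1), coeff (m - j * p) f * coeff j g := by
  rw [coeff_mul, Nat.sum_antidiagonal_eq_sum_range_succ_mk]
  have hp0 : 0 < p := Nat.pos_of_ne_zero hp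
  rw [← Finset.sum_range_reflect]
  have h1 : ∀ i ∈ range (m + 1), coeff (m + 1 - 1 - i) f * coeff (m - (m + 1 - 1 - i)) (expand p hp g) =
      if p ∣ i then coeff (m - i) f * coeff (i / p) g else 0 := by
    intro i hi
    rw [mem_range] at hi
    have e1 : m + 1 - 1 - i = m - i := by omega
    have e2 : m - (m - i) = i := by omega
    rw [e1, e2, coeff_expand]
    split_ifs
    · rfl
    · rw [mul_zero]
  have h0 : ∑ j ∈ range m.succ, (coeff (m.succ - 1 - j, m - (m.succ - 1 - j)).1 f *
      coeff (m.succ - 1 - j, m - (m.succ - 1 - j)).2 (expand p hp g)) =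
      ∑ i ∈ range (m + 1), if p ∣ i then coeff (m - i) f * coeff (i / p) g else 0 :=
    Finset.sum_congr rfl h1
  rw [h0, ← Finset.sum_filter]
  refine (Finset.sum_bij (fun j _ => j * p) ?_ ?_ ?_ ?_).symm
  · intro j hj
    rw [mem_range] at hj
    rw [mem_filter, mem_range]
    refine ⟨?_, Dvd.intro_left j rfl⟩
    have : j ≤ m / p := by omega
    have := (Nat.le_div_iff_mul_le hp0).1 this
    omega
  · intro i _ j _ h
    exact Nat.eq_of_mul_eq_mul_right hp0 h
  · intro i hi
    rw [mem_filter, mem_range] at hi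
    obtain ⟨h1, j, hj⟩ := hi
    refine ⟨j, ?_, ?_⟩
    · rw [mem_range]
      have : j ≤ m / p := (Nat.le_div_iff_mul_le hp0).2 (by rw [mul_comm]; omega)
      omega
    · rw [hj, mul_comm]
  · intro j _
    rw [Nat.mul_div_cancel _ hp0]

/-- Multinomial expansion of `∏ (g_s - b k_s)^(al_s)`. -/
theorem prod_sub_pow {r : ℕ} (g k : Fin r → PowerSeries R) (b : R) (al : Fin r → ℕ) :
    ∏ s, (g s - C b * k s) ^ al s =
      ∑ be ∈ Fintype.piFinset (fun s => range (al s + 1)),
        C (((-1) ^ (∑ s, be s) * b ^ (∑ s, be s)) * ((∏ s, (al s).choose (be s) : ℕ) : R)) *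
          ((∏ s, g s ^ (al s - be s)) * ∏ s, k s ^ be s) := by
  have h1 : ∀ s, (g s - C b * k s) ^ al s = ∑ i ∈ range (al s + 1),
      C ((-1) ^ i * b ^ i * ((al s).choose i : R)) * (g s ^ (al s - i) * k s ^ i) := by
    intro s
    rw [sub_eq_neg_add, add_pow]
    refine Finset.sum_congr rfl fun i _ => ?_
    rw [map_mul, map_mul, map_pow, map_pow, map_neg, map_one, map_natCast, neg_eq_neg_one_mul,
      mul_pow, mul_pow]
    ring
  rw [Finset.prod_congr rfl fun s _ => h1 s, Finset.prod_univ_sum]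
  refine Finset.sum_congr rfl fun be _ => ?_
  rw [Finset.prod_mul_distrib, Finset.prod_mul_distrib, ← map_prod, Finset.prod_mul_distrib,
    Finset.prod_mul_distrib, Finset.prod_pow_eq_pow_sum, Finset.prod_pow_eq_pow_sum, Nat.cast_prod]

end H94D
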