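import Pool.Agent.Lib.H94D.M4

/-!
# H94D: the Artin-Schreier form `h_s = b h_s^p + G_s` modulo a non-ordinary prime
-/

namespace H94D

open PowerSeries H53M H94M H53N H6V

/-- `f(q^p) = f^p` over `𝔽_p`. -/
theorem expand_eq_pow (p : ℕ) [Fact p.Prime] (hp : p ≠ 0) (f : PowerSeries (ZMod p)) :
    expand p hp f = f ^ p := by
  have h : (MvPowerSeries.expand p hp f).map (frobenius (ZMod p) p) = f ^ p :=
    MvPowerSeries.map_frobenius_expand p hp
  rw [ZMod.frobenius_zmod] at h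
  rw [← h]
  change _ = PowerSeries.map (RingHom.id (ZMod p)) (expand p hp f)
  rw [PowerSeries.map_id]
  rfl

/-- The form `G_s` with `h_s = b h_s^p + G_s`. -/
theorem artin_schreier {N k : ℕ} [NeZero N] (hk : 4 ≤ k) {a : ℕ → ℤ} (hF : Frm N k a) {r : ℕ}
    (d : Fin r → ℕ) (hd : ∀ s, d s ≠ 0) {L : ℕ} (hL : L ≠ 0) (hdL : ∀ s, d s ∣ L)
    (p : ℕ) [Fact p.Prime] (hp : 5 < p) (hpL : ¬ p ∣ L) (c : ℤ)
    (hH : ∀ n, a (p * n) = a p * a n - (if p ∣ n then c * (p : ℤ) ^ (k - 1) * a (n / p) else 0))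
    (e : ℤ) (hpa : a p = p * e) (s : Fin r) :
    ∃ G ∈ MN1 (N * L) p (k - 2 + (p - 1) * (k - 1)),
      redQ p (hs a d hd s) = C (e : ZMod p) * redQ p (hs a d hd s) ^ p + G := by
  refine ⟨_, G_mem hk hF p hp c hH e hpa (hdL s) hL hpL (hd s), ?_⟩
  rw [expand_eq_pow]
  unfold hs
  ring

end H94D
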