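import Pool.Agent.Lib.H94D.M3
import Pool.Agent.Lib.H6D.Defs

/-!
# H94D: Theorem D, part (M), for the data `H6D.Dat`
-/

namespace H94D

open Finset PowerSeries H53M H94M H36D H6D

theorem VV_eq {R : Type*} [CommRing R] (p : ℕ) (hp : p ≠ 0) (f : PowerSeries R) :
    VV p f = expand p hp f := by
  ext n
  unfold VV
  rw [coeff_mk, coeff_expand]

variable {r v μ s0 : ℕ} {h : Fin r → PowerSeries ℚ} {b : ℕ → ℤ} {Exc : ℕ → Prop}

/-- **Theorem D, part (M)**: the auxiliary function vanishes modulo `p`. -/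
theorem dat_FA (hD : Dat r v μ s0 h b Exc) (p : ℕ) [Fact p.Prime] (hp : ¬ Exc p) (J W X T : ℕ)
    (hX : X ≤ p) (hT : μ * (12 * W + J * (p * v + (p - 1))) / 12 + s0 ≤ T)
    (x : (Fin r → ℕ) × ℕ → ℤ) (hx : ∀ n j l : ℕ, n + j * X ≤ T → gg h J W x n j l = 0) :
    FA h J W x (b p : ZMod p) = 0 := by
  obtain ⟨M, hM, hG⟩ := hD.fam p hp
  refine van hM (fun s n => hD.int s n p Fact.out hp) J W X T x _ (p * v + (p - 1)) ?_ hx hX hT
  intro s
  have h1 := hG s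
  rwa [VV_eq p (NeZero.ne p), smul_eq_C_mul] at h1

/-- **Theorem D, part (M)**: the congruences for `H95D.endgame`. -/
theorem dat_congr (hD : Dat r v μ s0 h b Exc) (p : ℕ) (hpp : p.Prime) (hp : ¬ Exc p)
    (J W X T : ℕ) (hX : X ≤ p) (hT : μ * (12 * W + J * (p * v + (p - 1))) / 12 + s0 ≤ T)
    (x : (Fin r → ℕ) × ℕ → ℤ) (hx : ∀ n j l : ℕ, n + j * X ≤ T → gg h J W x n j l = 0)
    (D : ℤ) (G : ℕ → ℕ → ℕ → ℤ) (m : ℕ)
    (hG : ∀ j l : ℕ, j * p ≤ m → l ≤ J →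
      (D : ℚ) * gg h J W x (m - j * p) j l = (G (m - j * p) j l : ℤ)) :
    (p : ℤ) ∣ ∑ j ∈ range (m / p + 1), ∑ l ∈ range (J + 1), G (m - j * p) j l * b p ^ l := by
  have : Fact p.Prime := ⟨hpp⟩
  exact congr_of_van (fun s n => hD.int s n p hpp hp) J W x (b p)
    (dat_FA hD p hp J W X T hX hT x hx) D m G hG

/-- The bound for `T`, for `p ≤ 12 X`: `T = 12 (μ + 1) (v + 2) J X + s₀` is enough if `W ≤ J X`. -/
theorem T_bound (μ v s0 J W X p : ℕ) (hp : p ≤ 12 * X) (hW : W ≤ J * X) :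
    μ * (12 * W + J * (p * v + (p - 1))) / 12 + s0 ≤ μ * (v + 2) * J * X + s0 := by
  refine Nat.add_le_add_right ?_ _
  have h1 : p * v + (p - 1) ≤ 12 * X * (v + 1) := by
    calc p * v + (p - 1) ≤ p * v + p := by omega
      _ = p * (v + 1) := by ring
      _ ≤ 12 * X * (v + 1) := Nat.mul_le_mul_right _ hp
  calc μ * (12 * W + J * (p * v + (p - 1))) / 12
      ≤ μ * (12 * (J * X) + J * (12 * X * (v + 1))) / 12 :=
        Nat.div_le_div_right (Nat.mul_le_mul_left _ (Nat.add_le_add (Nat.mul_le_mul_left _ hW)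
          (Nat.mul_le_mul_left _ h1)))
    _ = μ * (v + 2) * J * X := by
        rw [show μ * (12 * (J * X) + J * (12 * X * (v + 1))) = μ * (v + 2) * J * X * 12 by ring]
        exact Nat.mul_div_cancel _ (by norm_num)

end H94D
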