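import Mathlib

/-!
# MP_273810_co : there are no bounces on the far sides (library H94D, helper94)

The abstract counting argument of A1 (b).
-/

namespace Pool.Agent.Lib.H94D.Far

open Finset

variable {D L : Type*} [DecidableEq D] [LinearOrder L]

/-- the value of a condition -/
def ind (p : Prop) [Decidable p] : ℤ := if p then 1 else 0

theorem ind_pos {p : Prop} [Decidable p] (h : p) : ind p = 1 := if_pos h

theorem ind_neg {p : Prop} [Decidable p] (h : ¬ p) : ind p = 0 := if_neg h

/-- the counting function of the chords of one copy -/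
def G (K : ℕ) (d : ℕ → D) (x : ℕ → L) (e : D) (y : L) : ℤ :=
  ∑ m ∈ range (K + 1), (ind (d m = e ∧ x m < y) - ind (d m = e ∧ x (m + 1) < y))

/-- `f c - f a` for the step function at `c` -/
theorem ind_step {a b c : L} (h1 : a ≠ c) (h2 : b ≠ c) :
    ind (c < b) - ind (c < a) =
      if a < b then ind (a < c ∧ c < b) else - ind (b < c ∧ c < a) := by
  unfold ind
  rcases lt_or_gt_of_ne h1 with h3 | h3 <;> rcases lt_or_gt_of_ne h2 with h4 | h4
  · have h5 := not_lt.2 h3.le
    have h6 := not_lt.2 h4.le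
    simp [h5, h6]
  · have h5 := not_lt.2 h3.le
    have h6 : a < b := h3.trans h4
    simp [h3, h4, h5, h6]
  · have h6 : ¬ a < b := not_lt.2 (h4.trans h3).le
    have h7 := not_lt.2 h4.le
    simp [h3, h4, h6, h7]
  · have h5 := not_lt.2 h3.le
    have h6 := not_lt.2 h4.le
    simp [h3, h4, h5, h6]

/-- non-interleaving for the step functions -/
theorem ind_ni {a b c e : L} (hab : a ≠ b) (h1 : a ≠ c) (h2 : b ≠ c) (h3 : a ≠ e) (h4 : b ≠ e)
    (h : (min a b < c ∧ c < max a b) ↔ (min a b < e ∧ e < max a b)) :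
    (ind (c < b) - ind (e < b)) - (ind (c < a) - ind (e < a)) = 0 := by
  have k1 := ind_step h1 h2
  have k2 := ind_step h3 h4
  have k3 : (ind (c < b) - ind (c < a)) - (ind (e < b) - ind (e < a)) = 0 := by
    rw [k1, k2]
    rcases lt_or_gt_of_ne hab with h5 | h5
    · rw [min_eq_left h5.le, max_eq_right h5.le] at h
      rw [if_pos h5, if_pos h5]
      unfold ind
      by_cases h6 : a < c ∧ c < b
      · rw [if_pos h6, if_pos (h.1 h6), sub_self]
      · rw [if_neg h6, if_neg (fun h7 => h6 (h.2 h7)), sub_self]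
    · rw [min_eq_right h5.le, max_eq_left h5.le] at h
      rw [if_neg (not_lt.2 h5.le), if_neg (not_lt.2 h5.le)]
      unfold ind
      by_cases h6 : b < c ∧ c < a
      · rw [if_pos h6, if_pos (h.1 h6), sub_self]
      · rw [if_neg h6, if_neg (fun h7 => h6 (h.2 h7)), sub_self]
  linarith

/-- the sum written at the bounces -/
theorem G_eq (K : ℕ) (d : ℕ → D) (x : ℕ → L) (e : D) (y : L) :
    G K d x e y = ind (d 0 = e ∧ x 0 < y) - ind (d K = e ∧ x (K + 1) < y) +
      ∑ m ∈ Icc 1 K, (ind (d m = e ∧ x m < y) - ind (d (m - 1) = e ∧ x m < y)) := by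
  unfold G
  induction K with
  | zero => simp
  | succ K ih =>
    rw [sum_range_succ, ih, sum_Icc_succ_top (by omega : 1 ≤ K + 1)]
    have e1 : K + 1 - 1 = K := by omega
    rw [e1]
    ring

section main

variable (K n : ℕ) (d : ℕ → D) (J : ℕ → ℕ) (x : ℕ → L) (ρ : ℕ → D → D)

/-- departures of the copy `e` on the side `j` in a set of positions -/
def dep (j : ℕ) (e : D) (p : L → Prop) [DecidablePred p] : ℤ :=
  ∑ m ∈ Icc 1 K, ind (J m = j ∧ d m = e ∧ p (x m))

theorem far_free (hinv : ∀ j e, ρ j (ρ j e) = e)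
    (hr : ∀ m, 1 ≤ m → m ≤ K → d m = ρ (J m) (d (m - 1)))
    (hne : ∀ m, 1 ≤ m → m ≤ K → d m ≠ d (m - 1))
    (hJ : ∀ m, 1 ≤ m → m ≤ K → 1 ≤ J m ∧ J m ≤ n)
    (hord : ∀ m m', 1 ≤ m → m ≤ K → 1 ≤ m' → m' ≤ K → J m < J m' → x m < x m')
    (h0 : ∀ m, 1 ≤ m → m ≤ K → (J m < n → x m < x 0 ∧ x m < x (K + 1)) ∧
      (J m = n → x 0 < x m ∧ x (K + 1) < x m))
    (hself : ∀ m ≤ K, x m ≠ x (m + 1))
    (hdist : ∀ m ≤ K, ∀ m' ≤ K, m ≠ m' → d m = d m' →
      x m ≠ x m' ∧ x (m + 1) ≠ x (m' + 1) ∧ x m ≠ x (m' + 1))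
    (hNI : ∀ m ≤ K, ∀ m' ≤ K, m ≠ m' → d m = d m' →
      ((min (x m) (x (m + 1)) < x m' ∧ x m' < max (x m) (x (m + 1))) ↔
        (min (x m) (x (m + 1)) < x (m' + 1) ∧ x (m' + 1) < max (x m) (x (m + 1)))))
    (hbal : ∀ j, 1 ≤ j → j + 2 ≤ n → ∀ e, #{m ∈ Icc 1 K | J m = j ∧ d m = e} =
      #{m ∈ Icc 1 K | J m = j ∧ d (m - 1) = e})
    (hpar : ∀ m m', 1 ≤ m → m ≤ K → 1 ≤ m' → m' ≤ K → J m = J m' →
      (d m = d m' ∨ d m = d (m' - 1)) → m % 2 = m' % 2) :
    ∀ m, 1 ≤ m → m ≤ K → n ≤ J m + 1 := by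
  classical
  -- STEP 1: along a chord `G` increases by one
  have step1 : ∀ m ≤ K, G K d x (d m) (x (m + 1)) = G K d x (d m) (x m) + 1 := by
    intro m hm
    unfold G
    have h1 : ∀ m' ∈ range (K + 1),
        (ind (d m' = d m ∧ x m' < x (m + 1)) - ind (d m' = d m ∧ x (m' + 1) < x (m + 1))) =
        (ind (d m' = d m ∧ x m' < x m) - ind (d m' = d m ∧ x (m' + 1) < x m)) +
          (if m' = m then 1 else 0) := by
      intro m' hm'
      have hm'K : m' ≤ K := by
        have := mem_range.1 hm'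
        omega
      by_cases h2 : m' = m
      · subst h2
        have h3 := hself m' hm
        unfold ind
        rcases lt_or_gt_of_ne h3 with h4 | h4
        · have h5 := not_lt.2 h4.le
          simp [h4, h5]
        · have h5 := not_lt.2 h4.le
          simp [h4, h5]
      · rw [if_neg h2, add_zero]
        by_cases h3 : d m' = d m
        · obtain ⟨k1, k2, k3⟩ := hdist m hm m' hm'K (Ne.symm h2) h3.symm
          obtain ⟨k4, k5, k6⟩ := hdist m' hm'K m hm h2 h3
          have h4 := ind_ni (hself m hm) k1 (Ne.symm k6) k3 k2 (hNI m hm m' hm'K (Ne.symm h2) h3.symm)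
          simp only [h3, true_and]
          linarith
        · have e1 : ∀ p : Prop, ∀ [Decidable p], ind (d m' = d m ∧ p) = 0 :=
            fun p _ => ind_neg (fun h => h3 h.1)
          rw [e1, e1, e1, e1]
    rw [sum_congr rfl h1, sum_add_distrib, sum_ite_eq' (range (K + 1)) m, if_pos (mem_range.2 (by omega))]
  -- the copies before and after a bounce
  have hback : ∀ m, 1 ≤ m → m ≤ K → ∀ e, d (m - 1) = e ↔ d m = ρ (J m) e := by
    intro m h1 h2 e
    constructor
    · rintro rfl
      exact hr m h1 h2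
    · intro h3
      have h4 := hr m h1 h2
      rw [h3] at h4
      have h5 := congrArg (ρ (J m)) h4
      rw [hinv, hinv] at h5
      exact h5.symm
  -- balance on all far sides together
  have hbal' : ∀ j, j + 1 ≤ n → ∀ e, ∑ m ∈ Icc 1 K, (ind (J m < j ∧ d m = e) -
      ind (J m < j ∧ d (m - 1) = e)) = 0 := by
    intro j
    induction j with
    | zero =>
      intro _ e
      apply sum_eq_zero
      intro m _
      rw [ind_neg (by omega), ind_neg (by omega), sub_self]
    | succ j ih =>
      intro hj e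
      have h1 := ih (by omega) e
      have h2 : ∑ m ∈ Icc 1 K, (ind (J m = j ∧ d m = e) - ind (J m = j ∧ d (m - 1) = e)) = 0 := by
        rcases Nat.eq_zero_or_pos j with h3 | h3
        · apply sum_eq_zero
          intro m hm
          have h4 := (hJ m (mem_Icc.1 hm).1 (mem_Icc.1 hm).2).1
          rw [ind_neg (by omega), ind_neg (by omega), sub_self]
        · have h4 := hbal j h3 (by omega) e
          rw [sum_sub_distrib]
          unfold ind
          rw [← natCast_card_filter, ← natCast_card_filter, h4, sub_self]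
      have h5 : ∀ m ∈ Icc 1 K, (ind (J m < j + 1 ∧ d m = e) - ind (J m < j + 1 ∧ d (m - 1) = e)) =
          (ind (J m < j ∧ d m = e) - ind (J m < j ∧ d (m - 1) = e)) +
          (ind (J m = j ∧ d m = e) - ind (J m = j ∧ d (m - 1) = e)) := by
        intro m _
        have h6 : ∀ p : Prop, ∀ [Decidable p],
            ind (J m < j + 1 ∧ p) = ind (J m < j ∧ p) + ind (J m = j ∧ p) := by
          intro p _
          unfold ind
          by_cases hp : p
          · rcases Nat.lt_trichotomy (J m) j with h7 | h7 | h7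
            · have h8 : J m < j + 1 := by omega
              have h9 : J m ≠ j := by omega
              simp [hp, h7, h8, h9]
            · have h8 : J m < j + 1 := by omega
              simp [hp, h7]
            · have h8 : ¬ J m < j + 1 := by omega
              have h9 : J m ≠ j := by omega
              have h10 : ¬ J m < j := by omega
              simp [hp, h8, h9, h10]
          · simp [hp]
        rw [h6, h6]
        ring
      rw [sum_congr rfl h5, sum_add_distrib, h1, h2, add_zero]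
  -- the telescoping sum
  have htel : ∀ e, ind (d 0 = e) - ind (d K = e) + ∑ m ∈ Icc 1 K, (ind (d m = e) - ind (d (m - 1) = e)) = 0 := by
    intro e
    have h1 : ∀ K : ℕ, ind (d 0 = e) - ind (d K = e) +
        ∑ m ∈ Icc 1 K, (ind (d m = e) - ind (d (m - 1) = e)) = 0 := by
      intro K
      induction K with
      | zero => simp
      | succ K ih =>
        rw [sum_Icc_succ_top (by omega : 1 ≤ K + 1)]
        have e1 : K + 1 - 1 = K := by omega
        rw [e1]
        linarith
    exact h1 K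
  -- STEP 2: the value of `G` at a bounce which is not on the side `n`
  have val1 : ∀ m₀, 1 ≤ m₀ → m₀ ≤ K → J m₀ < n → ∀ e, G K d x e (x m₀) =
      dep K d J x (J m₀) e (· < x m₀) - dep K d J x (J m₀) (ρ (J m₀) e) (· < x m₀) := by
    intro m₀ h1 h2 h3 e
    obtain ⟨h4, h5⟩ := (h0 m₀ h1 h2).1 h3
    rw [G_eq, ind_neg (fun h => (not_lt.2 h4.le) h.2), ind_neg (fun h => (not_lt.2 h5.le) h.2), sub_self,
      zero_add]
    have h6 : ∀ m ∈ Icc 1 K, (ind (d m = e ∧ x m < x m₀) - ind (d (m - 1) = e ∧ x m < x m₀)) =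
        (ind (J m < J m₀ ∧ d m = e) - ind (J m < J m₀ ∧ d (m - 1) = e)) +
        (ind (J m = J m₀ ∧ d m = e ∧ x m < x m₀) -
          ind (J m = J m₀ ∧ d m = ρ (J m₀) e ∧ x m < x m₀)) := by
      intro m hm
      obtain ⟨m1, m2⟩ := mem_Icc.1 hm
      rcases Nat.lt_trichotomy (J m) (J m₀) with h7 | h7 | h7
      · have h8 := hord m m₀ m1 m2 h1 h2 h7
        have h9 : J m ≠ J m₀ := by omega
        unfold ind
        simp [h7, h8, h9]
      · have h8 : ¬ J m < J m₀ := by omega
        have h9 := hback m m1 m2 e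
        rw [h7] at h9
        unfold ind
        simp [h7, h9]
      · have h8 : ¬ x m < x m₀ := not_lt.2 (hord m₀ m h1 h2 m1 m2 h7).le
        have h9 : ¬ J m < J m₀ := by omega
        have h10 : J m ≠ J m₀ := by omega
        unfold ind
        simp [h8, h9, h10]
    rw [sum_congr rfl h6, sum_add_distrib, hbal' (J m₀) (by omega) e, zero_add, sum_sub_distrib]
    rfl
  have val2 : ∀ m₀, 1 ≤ m₀ → m₀ ≤ K → J m₀ = n → ∀ e, G K d x e (x m₀) =
      -(dep K d J x n e (fun z => ¬ z < x m₀) - dep K d J x n (ρ n e) (fun z => ¬ z < x m₀)) := by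
    intro m₀ h1 h2 h3 e
    obtain ⟨h4, h5⟩ := (h0 m₀ h1 h2).2 h3
    have h4' : ind (d 0 = e ∧ x 0 < x m₀) = ind (d 0 = e) := by unfold ind; simp [h4]
    have h5' : ind (d K = e ∧ x (K + 1) < x m₀) = ind (d K = e) := by unfold ind; simp [h5]
    rw [G_eq, h4', h5']
    have h6 : ∀ m ∈ Icc 1 K, (ind (d m = e ∧ x m < x m₀) - ind (d (m - 1) = e ∧ x m < x m₀)) =
        (ind (d m = e) - ind (d (m - 1) = e)) -
        (ind (J m = n ∧ d m = e ∧ ¬ x m < x m₀) -
          ind (J m = n ∧ d m = ρ n e ∧ ¬ x m < x m₀)) := by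
      intro m hm
      obtain ⟨m1, m2⟩ := mem_Icc.1 hm
      rcases (hJ m m1 m2).2.lt_or_eq with h7 | h7
      · have h8 := hord m m₀ m1 m2 h1 h2 (by omega)
        have h9 : J m ≠ n := by omega
        unfold ind
        simp [h8, h9]
      · have h9 := hback m m1 m2 e
        rw [h7] at h9
        unfold ind
        by_cases h10 : x m < x m₀
        · simp [h10]
        · simp [h7, h9, h10]
    rw [sum_congr rfl h6, sum_sub_distrib, sum_sub_distrib (f := fun m => ind (J m = n ∧ d m = e ∧ ¬ x m < x m₀))]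
    have h7 := htel e
    unfold dep
    linarith
  -- antisymmetry
  have anti : ∀ m, 1 ≤ m → m ≤ K → G K d x (d m) (x m) = - G K d x (d (m - 1)) (x m) := by
    intro m h1 h2
    have h3 := hr m h1 h2
    have h4 : ρ (J m) (d m) = d (m - 1) := by rw [h3, hinv]
    rcases (hJ m h1 h2).2.lt_or_eq with h5 | h5
    · rw [val1 m h1 h2 h5, val1 m h1 h2 h5, h4, ← h3]
      ring
    · rw [h5] at h3 h4
      rw [val2 m h1 h2 h5, val2 m h1 h2 h5, h4, ← h3]
      ring
  -- the recursion for `L m = G (d m) (x m)`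
  have hL : ∀ m, m < K → G K d x (d (m + 1)) (x (m + 1)) = -(G K d x (d m) (x m) + 1) := by
    intro m hm
    have h1 := anti (m + 1) (by omega) (by omega)
    have e1 : m + 1 - 1 = m := by omega
    rw [e1] at h1
    rw [h1, step1 m (by omega)]
  have hL2 : ∀ m ≤ K, 2 * G K d x (d m) (x m) + 1 = (-1) ^ m * (2 * G K d x (d 0) (x 0) + 1) := by
    intro m
    induction m with
    | zero => intro _; simp
    | succ m ih =>
      intro hm
      have h1 := ih (by omega)
      rw [hL m (by omega), pow_succ]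
      linarith
  -- STEP 3
  intro m₀ h1 h2
  by_contra hcon
  have hfar : J m₀ + 2 ≤ n := by omega
  have hj1 := (hJ m₀ h1 h2).1
  set j := J m₀ with hj
  set δ := d m₀ with hδ
  -- the bounces of the pair
  set S : Finset ℕ := {m ∈ Icc 1 K | J m = j ∧ (d m = δ ∨ d m = ρ j δ)} with hS
  have hSne : S.Nonempty := ⟨m₀, by rw [hS, mem_filter, mem_Icc]; exact ⟨⟨h1, h2⟩, rfl, Or.inl rfl⟩⟩
  obtain ⟨m₁, hm₁, hmin⟩ := exists_min_image S x hSne
  obtain ⟨m₂, hm₂, hmax⟩ := exists_max_image S x hSne
  rw [hS, mem_filter, mem_Icc] at hm₁ hm₂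
  obtain ⟨⟨a1, a2⟩, a3, a4⟩ := hm₁
  obtain ⟨⟨b1, b2⟩, b3, b4⟩ := hm₂
  have hpair : ∀ m, 1 ≤ m → m ≤ K → J m = j → (d m = δ ∨ d m = ρ j δ) → ∀ e, (e = δ ∨ e = ρ j δ) →
      (e = d m ∨ e = ρ j (d m)) := by
    intro m _ _ _ h6 e h7
    rcases h6 with h6 | h6 <;> rcases h7 with h7 | h7 <;> rw [h6, h7]
    · exact Or.inl rfl
    · exact Or.inr rfl
    · right; rw [hinv]
    · exact Or.inl rfl
  -- the first one
  have hzero : G K d x (d m₁) (x m₁) = 0 := by
    rw [val1 m₁ a1 a2 (by omega), a3]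
    have h3 : ∀ e, (e = δ ∨ e = ρ j δ) → dep K d J x j e (· < x m₁) = 0 := by
      intro e he
      apply sum_eq_zero
      intro m hm
      apply ind_neg
      rintro ⟨h4, h5, h6⟩
      have h7 : m ∈ S := by
        rw [hS, mem_filter]
        exact ⟨hm, h4, by rw [h5]; exact he⟩
      exact (not_lt.2 (hmin m h7)) h6
    have h4 : ρ j (d m₁) = δ ∨ ρ j (d m₁) = ρ j δ := by
      rcases a4 with h5 | h5
      · right; rw [h5]
      · left; rw [h5, hinv]
    rw [h3 _ a4, h3 _ h4, sub_self]
  -- the last one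
  have hone : G K d x (d m₂) (x m₂) = -1 := by
    rw [val1 m₂ b1 b2 (by omega), b3]
    -- total balance on the side
    have htot : ∑ m ∈ Icc 1 K, (ind (J m = j ∧ d m = d m₂) - ind (J m = j ∧ d m = ρ j (d m₂))) = 0 := by
      have h3 := hbal j hj1 hfar (d m₂)
      have h4 : ∑ m ∈ Icc 1 K, (ind (J m = j ∧ d m = d m₂) - ind (J m = j ∧ d (m - 1) = d m₂)) = 0 := by
        rw [sum_sub_distrib]
        unfold ind
        rw [← natCast_card_filter, ← natCast_card_filter, h3, sub_self]
      rw [← h4]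
      refine sum_congr rfl fun m hm => ?_
      obtain ⟨m1, m2⟩ := mem_Icc.1 hm
      by_cases h5 : J m = j
      · have h6 := hback m m1 m2 (d m₂)
        rw [h5] at h6
        unfold ind
        simp only [h5, h6]
      · unfold ind
        simp [h5]
    have hsplit : ∀ m ∈ Icc 1 K, (ind (J m = j ∧ d m = d m₂) - ind (J m = j ∧ d m = ρ j (d m₂))) =
        (ind (J m = j ∧ d m = d m₂ ∧ x m < x m₂) - ind (J m = j ∧ d m = ρ j (d m₂) ∧ x m < x m₂)) +
        (if m = m₂ then 1 else 0) := by
      intro m hm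
      obtain ⟨m1, m2⟩ := mem_Icc.1 hm
      have hneq : d m₂ ≠ ρ j (d m₂) := by
        intro h3
        have h4 := (hback m₂ b1 b2 (d m₂)).2 (by rw [b3]; exact h3)
        exact hne m₂ b1 b2 h4.symm
      by_cases h3 : m = m₂
      · subst h3
        unfold ind
        simp [b3, hneq]
      · rw [if_neg h3, add_zero]
        by_cases h4 : J m = j ∧ (d m = d m₂ ∨ d m = ρ j (d m₂))
        · have h5 : m ∈ S := by
            rw [hS, mem_filter]
            refine ⟨hm, h4.1, ?_⟩
            rcases h4.2 with h5 | h5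
            · rw [h5]; exact b4
            · rw [h5]
              rcases b4 with h6 | h6
              · right; rw [h6]
              · left; rw [h6, hinv]
          have h6 : x m ≤ x m₂ := hmax m h5
          have h7 : x m ≠ x m₂ := by
            rcases h4.2 with h8 | h8
            · exact (hdist m m2 m₂ b2 h3 h8).1
            · -- `d (m - 1) = d m₂`, the chord `m - 1` arrives at `x m`
              have h9 := (hback m m1 m2 (d m₂)).2 (by rw [h4.1]; exact h8)
              by_cases h10 : m - 1 = m₂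
              · have h11 : m = m₂ + 1 := by omega
                rw [h11]
                exact (hself m₂ b2).symm
              · have h11 := (hdist m₂ b2 (m - 1) (by omega) (Ne.symm h10) h9.symm).2.2
                have e1 : m - 1 + 1 = m := by omega
                rw [e1] at h11
                exact h11.symm
          have h8 : x m < x m₂ := lt_of_le_of_ne h6 h7
          unfold ind
          simp only [h8, and_true]
        · have h5 : ¬ (J m = j ∧ d m = d m₂) := fun h => h4 ⟨h.1, Or.inl h.2⟩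
          have h6 : ¬ (J m = j ∧ d m = ρ j (d m₂)) := fun h => h4 ⟨h.1, Or.inr h.2⟩
          rw [ind_neg h5, ind_neg h6, ind_neg (fun h => h5 ⟨h.1, h.2.1⟩),
            ind_neg (fun h => h6 ⟨h.1, h.2.1⟩), sub_self]
    rw [sum_congr rfl hsplit, sum_add_distrib, sum_ite_eq' (Icc 1 K) m₂,
      if_pos (mem_Icc.2 ⟨b1, b2⟩), sum_sub_distrib] at htot
    unfold dep
    linarith
  -- the parities
  have hpar' : m₁ % 2 = m₂ % 2 := by
    refine hpar m₁ m₂ a1 a2 b1 b2 (by rw [a3, b3]) ?_
    have h3 := hpair m₂ b1 b2 b3 b4 (d m₁) a4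
    rcases h3 with h4 | h4
    · exact Or.inl h4
    · right
      have h5 := (hback m₂ b1 b2 (d m₁)).2 (by rw [b3, h4, hinv])
      exact h5.symm
  have h3 := hL2 m₁ a2
  have h4 := hL2 m₂ b2
  rw [hzero] at h3
  rw [hone] at h4
  have h5 : ((-1 : ℤ)) ^ m₁ = (-1) ^ m₂ := by
    rw [neg_one_pow_eq_pow_mod_two m₁, neg_one_pow_eq_pow_mod_two m₂, hpar']
  rw [h5] at h3
  omega

end main

end Pool.Agent.Lib.H94D.Far
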