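import Pool.Agent.Lib.H94D.Outs

/-!
# MP_273810_co : chords of a polygon do not interleave (library H94D, helper94)

`bd v s` runs through the boundary, `bd v (l + t) = v l + t (v (l+1) - v l)` for `0 ≤ t ≤ 1`. Two disjoint chords of
the polygon do not interleave on the boundary (`non_interleaving`).
-/

namespace Pool.Agent.Lib.H94D.Poly

open Complex Topology Filter Set
open Pool.Agent.H52W
open Pool.Agent.Lib.H42I (IsPolygon)

/-- The parametrisation of the boundary. -/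
noncomputable def bd {n : ℕ} (v : ZMod n → ℂ) (s : ℝ) : ℂ :=
  v ((⌊s⌋ : ℤ) : ZMod n) + ((Int.fract s : ℝ) : ℂ) * (v (((⌊s⌋ : ℤ) : ZMod n) + 1) - v ((⌊s⌋ : ℤ) : ZMod n))

theorem bd_eq {n : ℕ} (v : ZMod n → ℂ) (l : ℤ) (s : ℝ) (h1 : (l : ℝ) ≤ s) (h2 : s ≤ l + 1) :
    bd v s = v (l : ZMod n) + ((s - l : ℝ) : ℂ) * (v ((l : ZMod n) + 1) - v (l : ZMod n)) := by
  rcases h2.lt_or_eq with h3 | h3
  · have h4 : ⌊s⌋ = l := Int.floor_eq_iff.2 ⟨h1, h3⟩
    rw [bd, Int.fract, h4]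
  · have h4 : ⌊s⌋ = l + 1 := by
      rw [h3]
      have h5 : ((l : ℝ) + 1) = ((l + 1 : ℤ) : ℝ) := by push_cast; ring
      rw [h5, Int.floor_intCast]
    rw [bd, Int.fract, h4, h3]
    push_cast
    ring

theorem bd_int {n : ℕ} (v : ZMod n → ℂ) (l : ℤ) : bd v (l : ℝ) = v (l : ZMod n) := by
  rw [bd_eq v l l le_rfl (by linarith)]
  simp

theorem bd_mem_side {n : ℕ} (v : ZMod n → ℂ) (l : ℤ) (s : ℝ) (h1 : (l : ℝ) ≤ s) (h2 : s ≤ l + 1) :
    bd v s ∈ segment ℝ (v (l : ZMod n)) (v ((l : ZMod n) + 1)) := by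
  rw [bd_eq v l s h1 h2]
  exact param_mem_segment _ _ _ (by linarith) (by linarith)

theorem bd_mem_openSide {n : ℕ} (v : ZMod n → ℂ) (l : ℤ) (s : ℝ) (h1 : (l : ℝ) < s) (h2 : s < l + 1) :
    bd v s ∈ openSegment ℝ (v (l : ZMod n)) (v ((l : ZMod n) + 1)) := by
  rw [bd_eq v l s h1.le h2.le]
  exact param_mem_openSegment _ _ _ (by linarith) (by linarith)

theorem bd_mem_curve {n : ℕ} (v : ZMod n → ℂ) (s : ℝ) : bd v s ∈ curve v :=
  curve_side v _ (bd_mem_side v ⌊s⌋ s (Int.floor_le s) (Int.lt_floor_add_one s).le)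

theorem int_eq_of_cast_eq {n : ℕ} (l m : ℤ) (hl : 1 ≤ l) (hl' : l ≤ n) (hm : 1 ≤ m) (hm' : m ≤ n)
    (h : (l : ZMod n) = (m : ZMod n)) : l = m := by
  rw [ZMod.intCast_eq_intCast_iff_dvd_sub] at h
  obtain ⟨k, hk⟩ := h
  have h1 : k = 0 := by
    by_contra h2
    rcases lt_or_gt_of_ne h2 with h3 | h3
    · have : k ≤ -1 := by omega
      nlinarith
    · have : 1 ≤ k := by omega
      nlinarith
  rw [h1] at hk
  omega

theorem floor_bounds {n : ℕ} (s : ℝ) (h1 : 1 ≤ s) (h2 : s < n + 1) : 1 ≤ ⌊s⌋ ∧ ⌊s⌋ ≤ (n : ℤ) := by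
  constructor
  · exact Int.le_floor.2 (by exact_mod_cast h1)
  · have h3 : ⌊s⌋ < (n : ℤ) + 1 := Int.floor_lt.2 (by push_cast; exact h2)
    omega

theorem bd_inj {n : ℕ} {v : ZMod n → ℂ} (h : SimpleV v) {s t : ℝ} (hs1 : 1 ≤ s) (hs2 : s < n + 1)
    (ht1 : 1 ≤ t) (ht2 : t < n + 1) (he : bd v s = bd v t) : s = t := by
  have key : ∀ x : ℝ, bd v x ≠ v (((⌊x⌋ : ℤ) : ZMod n) + 1) := by
    intro x hx
    rw [bd] at hx
    have hne := sub_ne_zero.2 (Ne.symm (h.ne_succ ((⌊x⌋ : ℤ) : ZMod n)))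
    have h1 : ((Int.fract x : ℝ) : ℂ) = 1 := by
      apply mul_right_cancel₀ hne
      linear_combination hx
    have h2 : Int.fract x = 1 := by exact_mod_cast h1
    exact absurd (Int.fract_lt_one x) (by rw [h2]; exact lt_irrefl _)
  obtain ⟨l1, l2⟩ := floor_bounds s hs1 hs2
  obtain ⟨m1, m2⟩ := floor_bounds t ht1 ht2
  by_cases hlm : ((⌊s⌋ : ℤ) : ZMod n) = ((⌊t⌋ : ℤ) : ZMod n)
  · have h1 := int_eq_of_cast_eq _ _ l1 l2 m1 m2 hlm
    have hne := sub_ne_zero.2 (Ne.symm (h.ne_succ ((⌊s⌋ : ℤ) : ZMod n)))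
    rw [bd, bd, ← h1] at he
    have h2 : ((Int.fract s : ℝ) : ℂ) = ((Int.fract t : ℝ) : ℂ) := by
      apply mul_right_cancel₀ hne
      exact add_left_cancel he
    have h3 : Int.fract s = Int.fract t := by exact_mod_cast h2
    have h4 : (⌊s⌋ : ℝ) = (⌊t⌋ : ℝ) := by exact_mod_cast h1
    have h5 := Int.floor_add_fract s
    have h6 := Int.floor_add_fract t
    linarith
  · exfalso
    have h1 := bd_mem_side v ⌊s⌋ s (Int.floor_le s) (Int.lt_floor_add_one s).le
    have h2 := bd_mem_side v ⌊t⌋ t (Int.floor_le t) (Int.lt_floor_add_one t).le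
    rw [← he] at h2
    obtain ⟨h3, h4⟩ := h.simple _ _ hlm ⟨h1, h2⟩
    have h5 : bd v s = v ((⌊s⌋ : ℤ) : ZMod n) := by
      rcases h3 with h3 | h3
      · exact h3
      · exact absurd h3 (key s)
    have h6 : bd v s = v ((⌊t⌋ : ℤ) : ZMod n) := by
      rcases h4 with h4 | h4
      · exact h4
      · rw [he] at h4
        exact absurd h4 (key t)
    exact hlm (h.inj (h5.symm.trans h6))

/-- The boundary is affine on `[l, l + 1]`. -/
theorem bd_affine {n : ℕ} (v : ZMod n → ℂ) (l : ℤ) (p q u : ℝ) (hp : (l : ℝ) ≤ p) (hp' : p ≤ l + 1)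
    (hq : (l : ℝ) ≤ q) (hq' : q ≤ l + 1) (hu0 : 0 ≤ u) (hu1 : u ≤ 1) :
    bd v p + (u : ℂ) * (bd v q - bd v p) = bd v (p + u * (q - p)) := by
  have h1 : (l : ℝ) ≤ p + u * (q - p) := by nlinarith
  have h2 : p + u * (q - p) ≤ l + 1 := by nlinarith
  rw [bd_eq v l p hp hp', bd_eq v l q hq hq', bd_eq v l _ h1 h2]
  push_cast
  ring

theorem mem_segment_bd {n : ℕ} (v : ZMod n → ℂ) (l : ℤ) (p q : ℝ) (hp : (l : ℝ) ≤ p) (hpq : p ≤ q)
    (hq' : q ≤ l + 1) {z : ℂ} (hz : z ∈ segment ℝ (bd v p) (bd v q)) :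
    ∃ x, p ≤ x ∧ x ≤ q ∧ z = bd v x := by
  obtain ⟨u, hu0, hu1, rfl⟩ := mem_segment_param hz
  refine ⟨p + u * (q - p), by nlinarith, by nlinarith, ?_⟩
  exact bd_affine v l p q u hp (by linarith) (by linarith) hq' hu0 hu1

theorem bd_mem_openSegment {n : ℕ} (v : ZMod n → ℂ) (l : ℤ) (p c q : ℝ) (hp : (l : ℝ) ≤ p) (hpc : p < c)
    (hcq : c < q) (hq' : q ≤ l + 1) : bd v c ∈ openSegment ℝ (bd v p) (bd v q) := by
  have hpq : 0 < q - p := by linarith
  have h1 : bd v c = bd v p + (((c - p) / (q - p) : ℝ) : ℂ) * (bd v q - bd v p) := by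
    rw [bd_affine v l p q _ hp (by linarith) (by linarith) hq' (div_nonneg (by linarith) hpq.le)
      ((div_le_one hpq).2 (by linarith))]
    congr 1
    field_simp
    ring
  rw [h1]
  exact param_mem_openSegment _ _ _ (div_pos (by linarith) hpq) ((div_lt_one hpq).2 (by linarith))

/-! ### The closed curve of a chord and a boundary arc -/

/-- `t` moved into `[a, b]`. -/
noncomputable def clamp (a b t : ℝ) : ℝ := max a (min t b)

theorem clamp_ge (a b t : ℝ) : a ≤ clamp a b t := le_max_left _ _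

theorem clamp_le {a b : ℝ} (h : a ≤ b) (t : ℝ) : clamp a b t ≤ b := max_le h (min_le_right _ _)

theorem clamp_mono (a b : ℝ) {s t : ℝ} (h : s ≤ t) : clamp a b s ≤ clamp a b t :=
  max_le_max le_rfl (min_le_min h le_rfl)

/-- The closed curve: the boundary from `a` to `b` and the chord back. -/
noncomputable def cyc {n : ℕ} (v : ZMod n → ℂ) (a b : ℝ) (r : ZMod (n + 2)) : ℂ :=
  bd v (clamp a b (r.val : ℝ))

theorem cyc_nat {n : ℕ} (v : ZMod n → ℂ) (a b : ℝ) (k : ℕ) (hk : k < n + 2) :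
    cyc v a b (k : ZMod (n + 2)) = bd v (clamp a b k) := by
  rw [cyc, ZMod.val_natCast_of_lt hk]

/-- The sides of the closed curve. -/
theorem cyc_side {n : ℕ} (v : ZMod n → ℂ) {a b : ℝ} (ha : 1 ≤ a) (hab : a < b) (hb : b < n + 1)
    (r : ZMod (n + 2)) :
    (∃ k : ℕ, k ≤ n ∧ r = (k : ZMod (n + 2)) ∧ cyc v a b r = bd v (clamp a b k) ∧
      cyc v a b (r + 1) = bd v (clamp a b ((k : ℝ) + 1))) ∨
    (cyc v a b r = bd v b ∧ cyc v a b (r + 1) = bd v a) := by
  have h1 : r.val < n + 2 := ZMod.val_lt r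
  have h2 : ((r.val : ℕ) : ZMod (n + 2)) = r := ZMod.natCast_zmod_val r
  rcases Nat.lt_or_ge r.val (n + 1) with h3 | h3
  · left
    refine ⟨r.val, by omega, h2.symm, rfl, ?_⟩
    have h4 : r + 1 = ((r.val + 1 : ℕ) : ZMod (n + 2)) := by
      push_cast
      rw [h2]
    rw [h4, cyc_nat v a b _ (by omega)]
    push_cast
    rfl
  · right
    have h4 : r.val = n + 1 := by omega
    constructor
    · rw [cyc, h4]
      congr 1
      rw [clamp, min_eq_right (by push_cast; linarith), max_eq_right hab.le]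
    · have h5 : r + 1 = ((0 : ℕ) : ZMod (n + 2)) := by
        rw [← h2, h4]
        have h6 := ZMod.natCast_self (n + 2)
        push_cast at h6 ⊢
        linear_combination h6
      rw [h5, cyc_nat v a b 0 (by omega)]
      congr 1
      rw [clamp, min_eq_left (by push_cast; linarith), max_eq_left (by push_cast; linarith)]

theorem clamp_piece {a b : ℝ} (hab : a < b) (k : ℕ) :
    clamp a b ((k : ℝ) + 1) = clamp a b k ∨
      ((k : ℝ) ≤ clamp a b k ∧ clamp a b ((k : ℝ) + 1) ≤ (k : ℝ) + 1) := by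
  by_cases h1 : (k : ℝ) + 1 ≤ a
  · left
    rw [clamp, clamp, min_eq_left (by linarith), min_eq_left (by linarith), max_eq_left h1,
      max_eq_left (by linarith)]
  by_cases h2 : b ≤ (k : ℝ)
  · left
    rw [clamp, clamp, min_eq_right h2, min_eq_right (by linarith)]
  · right
    push Not at h1 h2
    constructor
    · rw [clamp, min_eq_left h2.le]
      exact le_max_right _ _
    · rw [clamp]
      exact max_le h1.le (min_le_left _ _)

theorem mem_cyc_piece {n : ℕ} (v : ZMod n → ℂ) {a b : ℝ} (hab : a < b) (k : ℕ) {z : ℂ}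
    (hz : z ∈ segment ℝ (bd v (clamp a b k)) (bd v (clamp a b ((k : ℝ) + 1)))) :
    ∃ x, clamp a b k ≤ x ∧ x ≤ clamp a b ((k : ℝ) + 1) ∧ z = bd v x := by
  rcases clamp_piece hab k with h1 | ⟨h1, h2⟩
  · rw [h1, segment_same, mem_singleton_iff] at hz
    exact ⟨_, le_rfl, h1.ge, hz⟩
  · refine mem_segment_bd v (k : ℤ) _ _ (by push_cast; exact h1) (clamp_mono a b (by linarith))
      (by push_cast; exact h2) hz

theorem mem_curve_cyc {n : ℕ} (v : ZMod n → ℂ) {a b : ℝ} (ha : 1 ≤ a) (hab : a < b) (hb : b < n + 1)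
    {z : ℂ} (hz : z ∈ curve (cyc v a b)) :
    (∃ x, a ≤ x ∧ x ≤ b ∧ z = bd v x) ∨ z ∈ segment ℝ (bd v a) (bd v b) := by
  rw [curve, mem_iUnion] at hz
  obtain ⟨r, hr⟩ := hz
  rcases cyc_side v ha hab hb r with ⟨k, _, _, h1, h2⟩ | ⟨h1, h2⟩
  · rw [h1, h2] at hr
    obtain ⟨x, hx1, hx2, hx3⟩ := mem_cyc_piece v hab k hr
    exact Or.inl ⟨x, (clamp_ge _ _ _).trans hx1, hx2.trans (clamp_le hab.le _), hx3⟩
  · rw [h1, h2, segment_symm] at hr
    exact Or.inr hr

/-- Points outside the polygon are not inside the closed curve of a chord and a boundary arc. -/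
theorem not_inside_cyc {n : ℕ} [NeZero n] {P : Set ℂ} {v : ZMod n → ℂ} (h : IsPolygon P v) {a b : ℝ}
    (ha : 1 ≤ a) (hab : a < b) (hb : b < n + 1)
    (hch : openSegment ℝ (bd v a) (bd v b) ⊆ interior P) {z : ℂ} (hz : z ∈ OutS v) :
    ¬ Inside (cyc v a b) z := by
  have hs := simpleV_of_polygon h
  have hP : ∀ x ∈ OutS v, x ∉ P := by
    intro x hx hxP
    exact hx.2 ((mem_iff_inside h x hx.1).1 hxP)
  have hcP : ∀ s, bd v s ∈ P := by
    intro s
    have h1 : bd v s ∈ frontier P := by rw [h.frontier_eq]; exact bd_mem_curve v s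
    exact h.compact.isClosed.frontier_subset h1
  have hsub : ∀ x ∈ OutS v, x ∉ curve (cyc v a b) := by
    intro x hx hxc
    rcases mem_curve_cyc v ha hab hb hxc with ⟨s, _, _, h1⟩ | h1
    · exact hP x hx (h1 ▸ hcP s)
    · rw [← insert_endpoints_openSegment] at h1
      rcases h1 with h1 | h1 | h1
      · exact hP x hx (h1 ▸ hcP a)
      · exact hP x hx (h1 ▸ hcP b)
      · exact hP x hx (interior_subset (hch h1))
  obtain ⟨R, hR⟩ : ∃ R : ℝ, (∀ i, ‖v i‖ ≤ R) ∧ ∀ i, ‖cyc v a b i‖ ≤ R := by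
    obtain ⟨R1, hR1⟩ := (Set.finite_range fun i => ‖v i‖).bddAbove
    obtain ⟨R2, hR2⟩ := (Set.finite_range fun i => ‖cyc v a b i‖).bddAbove
    exact ⟨max R1 R2, fun i => (hR1 ⟨i, rfl⟩).trans (le_max_left _ _),
      fun i => (hR2 ⟨i, rfl⟩).trans (le_max_right _ _)⟩
  have hR0 : 0 ≤ R := (norm_nonneg _).trans (hR.1 0)
  set x : ℂ := ((R + 1 : ℝ) : ℂ) with hx
  have hxn : R < ‖x‖ := by
    rw [hx, Complex.norm_real, Real.norm_eq_abs, abs_of_pos (by linarith)]
    linarith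
  have hxO : x ∈ OutS v := by
    refine ⟨fun hxc => ?_, not_inside_far v R hR.1 x hxn⟩
    have h1 := curve_subset_closedBall v R hR.1 hxc
    rw [mem_closedBall_zero_iff] at h1
    linarith
  have h2 := not_inside_far (cyc v a b) R hR.2 x hxn
  intro h3
  exact h2 ((inside_iff_of_isPreconnected (cyc v a b) (isPreconnected_outS hs) hsub hz hxO).1 h3)

/-- The core: no chord from a point `c` between `a` and `b` to a point `e` not between `a` and `b`. -/
theorem no_cross {n : ℕ} [NeZero n] {P : Set ℂ} {v : ZMod n → ℂ} (h : IsPolygon P v) {a b c e : ℝ}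
    (ha : 1 ≤ a) (hb : b < n + 1) (hac : a < c) (hcb : c < b) (hc : ∀ k : ℤ, c ≠ k)
    (he1 : 1 ≤ e) (he2 : e < n + 1) (he : e < a ∨ b < e)
    (hab' : openSegment ℝ (bd v a) (bd v b) ⊆ interior P)
    (hce' : openSegment ℝ (bd v c) (bd v e) ⊆ interior P)
    (hdis : ∀ z ∈ segment ℝ (bd v a) (bd v b), z ∉ segment ℝ (bd v c) (bd v e)) : False := by
  have hs := simpleV_of_polygon h
  have hab : a < b := hac.trans hcb
  have hc1 : 1 ≤ c := by linarith
  have hc2 : c < n + 1 := by linarith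
  have hnotin : ∀ {x}, x ∈ interior P → x ∉ curve v := by
    intro x hx hxc
    exact ((mem_interior_iff_inside h x).1 hx).1 hxc
  set y := cyc v a b with hy
  -- the point `bd v e` is not on the curve, not inside
  have he3 : bd v e ∉ curve y := by
    intro h1
    rcases mem_curve_cyc v ha hab hb h1 with ⟨x, hx1, hx2, hx3⟩ | h1
    · have h2 := bd_inj hs he1 he2 (by linarith) (by linarith) hx3
      rcases he with he | he <;> linarith
    · exact hdis _ h1 (right_mem_segment _ _ _)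
  have he4 : ¬ Inside y (bd v e) := by
    intro h1
    have h2 := (hs.mem_closures (bd_mem_curve v e)).2
    obtain ⟨z, hz1, hz2⟩ := mem_closure_iff.1 h2 _ (isOpen_inside y) h1
    exact not_inside_cyc h ha hab hb hab' hz2 hz1
  -- the chord
  set d := bd v e - bd v c with hd
  have hchord : ∀ t : ℝ, 0 < t → t < 1 → bd v c + (t : ℂ) * d ∈ openSegment ℝ (bd v c) (bd v e) :=
    fun t ht0 ht1 => param_mem_openSegment _ _ t ht0 ht1
  have hoff : ∀ z ∈ (fun t : ℝ => bd v c + (t : ℂ) * d) '' Ioc 0 1, z ∉ curve y := by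
    rintro _ ⟨t, ⟨ht0, ht1⟩, rfl⟩ hz
    rcases ht1.lt_or_eq with ht1 | ht1
    · have h1 := hchord t ht0 ht1
      rcases mem_curve_cyc v ha hab hb hz with ⟨x, _, _, hx3⟩ | h2
      · have h4 : bd v c + (t : ℂ) * d = bd v x := hx3
        apply hnotin (hce' h1)
        rw [h4]
        exact bd_mem_curve v x
      · exact hdis _ h2 (openSegment_subset_segment _ _ _ h1)
    · apply he3
      have h1 : bd v c + ((t : ℝ) : ℂ) * d = bd v e := by
        rw [ht1, hd]; push_cast; ring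
      rw [← h1]
      exact hz
  have hpc : IsPreconnected ((fun t : ℝ => bd v c + (t : ℂ) * d) '' Ioc 0 1) := by
    apply isPreconnected_Ioc.image
    fun_prop
  have hnot : ∀ t : ℝ, 0 < t → t ≤ 1 → ¬ Inside y (bd v c + (t : ℂ) * d) := by
    intro t ht0 ht1 h1
    apply he4
    have h2 : bd v e ∈ (fun t : ℝ => bd v c + (t : ℂ) * d) '' Ioc 0 1 := by
      refine ⟨1, ⟨one_pos, le_rfl⟩, ?_⟩
      simp only [hd, Complex.ofReal_one, one_mul]
      ring
    exact (inside_iff_of_isPreconnected y hpc hoff ⟨t, ⟨ht0, ht1⟩, rfl⟩ h2).1 h1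
  -- the side of `c`
  obtain ⟨f1, f2⟩ := floor_bounds c hc1 hc2
  obtain ⟨k, hk⟩ : ∃ k : ℕ, ⌊c⌋ = (k : ℤ) := ⟨⌊c⌋.toNat, (Int.toNat_of_nonneg (by omega)).symm⟩
  have hk1 : (k : ℝ) < c := by
    have h1 := Int.floor_le c
    rw [hk] at h1
    push_cast at h1
    refine lt_of_le_of_ne h1 (fun h2 => hc k ?_)
    push_cast
    exact h2.symm
  have hk2 : c < (k : ℝ) + 1 := by
    have h1 := Int.lt_floor_add_one c
    rw [hk] at h1
    push_cast at h1
    exact h1
  have hkn : k ≤ n := by omega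
  have hcp : clamp a b k < c := by
    rw [clamp, max_lt_iff]
    exact ⟨hac, (min_le_left _ _).trans_lt hk1⟩
  have hcq : c < clamp a b ((k : ℝ) + 1) := by
    rw [clamp, lt_max_iff]
    right
    rw [lt_min_iff]
    exact ⟨hk2, hcb⟩
  obtain ⟨kp, kq⟩ : ((k : ℝ) ≤ clamp a b k ∧ clamp a b ((k : ℝ) + 1) ≤ (k : ℝ) + 1) := by
    rcases clamp_piece hab k with h1 | h1
    · linarith
    · exact h1
  have hyk : y (k : ZMod (n + 2)) = bd v (clamp a b k) := cyc_nat v a b k (by omega)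
  have hyk1 : y ((k : ZMod (n + 2)) + 1) = bd v (clamp a b ((k : ℝ) + 1)) := by
    have h1 : (k : ZMod (n + 2)) + 1 = ((k + 1 : ℕ) : ZMod (n + 2)) := by push_cast; ring
    rw [h1, hy, cyc_nat v a b _ (by omega)]
    push_cast
    rfl
  have hcy : bd v c ∈ openSegment ℝ (y (k : ZMod (n + 2))) (y ((k : ZMod (n + 2)) + 1)) := by
    rw [hyk, hyk1]
    exact bd_mem_openSegment v (k : ℤ) _ _ _ (by push_cast; exact kp) hcp hcq (by push_cast; exact kq)
  have hcoth : ∀ j : ZMod (n + 2), j ≠ (k : ZMod (n + 2)) → bd v c ∉ segment ℝ (y j) (y (j + 1)) := by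
    intro j hj hmem
    rcases cyc_side v ha hab hb j with ⟨l, _, hl, h1, h2⟩ | ⟨h1, h2⟩
    · rw [hy, h1, h2] at hmem
      obtain ⟨x, hx1, hx2, hx3⟩ := mem_cyc_piece v hab l hmem
      have hx4 : a ≤ x := (clamp_ge _ _ _).trans hx1
      have hx5 : x ≤ b := hx2.trans (clamp_le hab.le _)
      have hx6 := bd_inj hs hc1 hc2 (by linarith) (by linarith) hx3
      rw [← hx6] at hx1 hx2
      have h3 : (l : ℝ) ≤ c := by
        have h4 : min (l : ℝ) b ≤ c := (le_max_right _ _).trans hx1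
        rcases min_le_iff.1 h4 with h5 | h5
        · exact h5
        · linarith
      have h4 : c ≤ (l : ℝ) + 1 := by
        rw [clamp, le_max_iff] at hx2
        rcases hx2 with h5 | h5
        · linarith
        · exact h5.trans (min_le_left _ _)
      have h5 : ⌊c⌋ = (l : ℤ) := by
        rw [Int.floor_eq_iff]
        push_cast
        refine ⟨h3, lt_of_le_of_ne h4 (fun h6 => hc (l + 1) ?_)⟩
        push_cast
        exact h6
      have h6 : l = k := by
        rw [hk] at h5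
        omega
      exact hj (by rw [hl, h6])
    · rw [hy, h1, h2, segment_symm] at hmem
      exact hdis _ hmem (left_mem_segment _ _ _)
  -- the direction is not parallel to the side
  have hvk := bd_eq v (k : ℤ) c (by push_cast; exact hk1.le) (by push_cast; exact hk2.le)
  have hdir : cdet d (v (((k : ℤ) : ZMod n) + 1) - v ((k : ℤ) : ZMod n)) ≠ 0 := by
    intro h0
    set g := v (((k : ℤ) : ZMod n) + 1) - v ((k : ℤ) : ZMod n) with hg
    have hg0 : g ≠ 0 := sub_ne_zero.2 (Ne.symm (hs.ne_succ _))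
    obtain ⟨m, hm⟩ : ∃ m : ℝ, d = (m : ℂ) * g := by
      refine ⟨(d / g).re, ?_⟩
      have him : (d / g).im = 0 := by
        rw [Complex.div_im]
        have e : d.im * g.re / normSq g - d.re * g.im / normSq g = -(cdet d g / normSq g) := by
          simp only [cdet]; ring
        rw [e, h0, zero_div, neg_zero]
      have e2 : ((d / g).re : ℂ) = d / g := by
        apply Complex.ext
        · simp
        · simpa using him.symm
      rw [e2, div_mul_cancel₀ _ hg0]
    have h1 : ∀ᶠ t : ℝ in 𝓝[>] 0, t < 1 :=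
      (eventually_lt_nhds (by norm_num : (0 : ℝ) < 1)).filter_mono nhdsWithin_le_nhds
    have h2 : ∀ᶠ t : ℝ in 𝓝[>] 0, (0 : ℝ) < (c - k) + t * m := by
      have hc' : ContinuousAt (fun t : ℝ => (c - k) + t * m) 0 := by fun_prop
      have h3 := hc'.eventually (lt_mem_nhds (show (0 : ℝ) < (c - k) + 0 * m by linarith))
      exact h3.filter_mono nhdsWithin_le_nhds
    have h3 : ∀ᶠ t : ℝ in 𝓝[>] 0, (c - k) + t * m < 1 := by
      have hc' : ContinuousAt (fun t : ℝ => (c - k) + t * m) 0 := by fun_prop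
      have h3 := hc'.eventually (gt_mem_nhds (show (c - k) + 0 * m < 1 by linarith))
      exact h3.filter_mono nhdsWithin_le_nhds
    have h4 : ∀ᶠ t : ℝ in 𝓝[>] 0, 0 < t := self_mem_nhdsWithin
    obtain ⟨t, ⟨⟨⟨h5, h6⟩, h7⟩, h8⟩⟩ := (((h1.and h2).and h3).and h4).exists
    apply hnotin (hce' (hchord t h8 h5))
    apply curve_side v ((k : ℤ) : ZMod n)
    have e : bd v c + (t : ℂ) * d = v ((k : ℤ) : ZMod n) + (((c - k) + t * m : ℝ) : ℂ) * g := by
      rw [hvk, hm]
      push_cast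
      ring
    rw [e]
    exact param_mem_segment _ _ _ h6.le h7.le
  have hdiry : cdet d (y ((k : ZMod (n + 2)) + 1) - y (k : ZMod (n + 2))) ≠ 0 := by
    rw [hyk, hyk1, bd_eq v (k : ℤ) (clamp a b k) (by push_cast; exact kp) (by push_cast; linarith),
      bd_eq v (k : ℤ) (clamp a b ((k : ℝ) + 1)) (by push_cast; linarith) (by push_cast; exact kq)]
    set g := v (((k : ℤ) : ZMod n) + 1) - v ((k : ℤ) : ZMod n) with hg
    have e : v ((k : ℤ) : ZMod n) + ((clamp a b ((k : ℝ) + 1) - ((k : ℤ) : ℝ) : ℝ) : ℂ) * g -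
        (v ((k : ℤ) : ZMod n) + ((clamp a b (k : ℝ) - ((k : ℤ) : ℝ) : ℝ) : ℂ) * g) =
        ((clamp a b ((k : ℝ) + 1) - clamp a b (k : ℝ) : ℝ) : ℂ) * g := by
      push_cast; ring
    have h9 : clamp a b ((k : ℝ) + 1) - clamp a b (k : ℝ) ≠ 0 := by
      intro h0
      linarith
    rw [e, cdet_smul]
    exact mul_ne_zero h9 hdir
  -- the two flips
  have hf1 := inside_flip_local y (k : ZMod (n + 2)) (bd v c) d hcy hcoth hdiry
  have hopen := bd_mem_openSide v (k : ℤ) c (by push_cast; exact hk1) (by push_cast; exact hk2)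
  have hf2 := inside_flip_local v ((k : ℤ) : ZMod n) (bd v c) d hopen (hs.open_other hopen) hdir
  have h1 : ∀ᶠ t : ℝ in 𝓝[>] 0, t < 1 :=
    (eventually_lt_nhds (by norm_num : (0 : ℝ) < 1)).filter_mono nhdsWithin_le_nhds
  have h2 : ∀ᶠ t : ℝ in 𝓝[>] 0, 0 < t := self_mem_nhdsWithin
  obtain ⟨t, ⟨⟨⟨_, _, g1⟩, ⟨_, g2, g3⟩⟩, ht1⟩, ht0⟩ := (((hf1.and hf2).and h1).and h2).exists
  have k1 : Inside y (bd v c - (t : ℂ) * d) := g1.2 (hnot t ht0 ht1.le)
  have k2 : Inside v (bd v c + (t : ℂ) * d) := (mem_interior_iff_inside h _).1 (hce' (hchord t ht0 ht1))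
  have k3 : ¬ Inside v (bd v c - (t : ℂ) * d) := fun h3 => (g3.1 h3) k2
  exact not_inside_cyc h ha hab hb hab' ⟨g2, k3⟩ k1

/-- NON-INTERLEAVING: two disjoint chords of a polygon do not interleave. -/
theorem non_interleaving {n : ℕ} {P : Set ℂ} {v : ZMod n → ℂ} (h : IsPolygon P v) {a b c e : ℝ}
    (ha1 : 1 ≤ a) (ha2 : a < n + 1) (hb1 : 1 ≤ b) (hb2 : b < n + 1)
    (hc1 : 1 ≤ c) (hc2 : c < n + 1) (he1 : 1 ≤ e) (he2 : e < n + 1)
    (hc : ∀ k : ℤ, c ≠ k) (he : ∀ k : ℤ, e ≠ k)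
    (hab : openSegment ℝ (bd v a) (bd v b) ⊆ interior P)
    (hce : openSegment ℝ (bd v c) (bd v e) ⊆ interior P)
    (hdis : ∀ z ∈ segment ℝ (bd v a) (bd v b), z ∉ segment ℝ (bd v c) (bd v e)) :
    (min a b < c ∧ c < max a b) ↔ (min a b < e ∧ e < max a b) := by
  have : NeZero n := ⟨by have := h.three_le; omega⟩
  have hs := simpleV_of_polygon h
  -- the four parameters are different
  have hne : ∀ x y : ℝ, bd v x ∈ segment ℝ (bd v a) (bd v b) → bd v y ∈ segment ℝ (bd v c) (bd v e) →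
      x ≠ y := by
    rintro x y hx hy rfl
    exact hdis _ hx hy
  have n1 := hne a c (left_mem_segment _ _ _) (left_mem_segment _ _ _)
  have n2 := hne a e (left_mem_segment _ _ _) (right_mem_segment _ _ _)
  have n3 := hne b c (right_mem_segment _ _ _) (left_mem_segment _ _ _)
  have n4 := hne b e (right_mem_segment _ _ _) (right_mem_segment _ _ _)
  -- reduction to `a < b`
  have main : ∀ a b : ℝ, 1 ≤ a → b < n + 1 → a ≠ c → a ≠ e → b ≠ c → b ≠ e →
      openSegment ℝ (bd v a) (bd v b) ⊆ interior P →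
      (∀ z ∈ segment ℝ (bd v a) (bd v b), z ∉ segment ℝ (bd v c) (bd v e)) →
      ((a < c ∧ c < b) ↔ (a < e ∧ e < b)) := by
    intro a b ha hb m1 m2 m3 m4 hab hdis
    constructor
    · rintro ⟨h1, h2⟩
      by_contra h3
      have h4 : e < a ∨ b < e := by
        by_contra h5
        push Not at h5
        exact h3 ⟨lt_of_le_of_ne h5.1 m2, lt_of_le_of_ne h5.2 (Ne.symm m4)⟩
      exact no_cross h ha hb h1 h2 hc he1 he2 h4 hab hce hdis
    · rintro ⟨h1, h2⟩
      by_contra h3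
      have h4 : c < a ∨ b < c := by
        by_contra h5
        push Not at h5
        exact h3 ⟨lt_of_le_of_ne h5.1 m1, lt_of_le_of_ne h5.2 (Ne.symm m3)⟩
      refine no_cross h ha hb h1 h2 he hc1 hc2 h4 hab (by rwa [openSegment_symm]) ?_
      intro z hz
      rw [segment_symm]
      exact hdis z hz
  rcases le_total a b with h1 | h1
  · rw [min_eq_left h1, max_eq_right h1]
    exact main a b ha1 hb2 n1 n2 n3 n4 hab hdis
  · rw [min_eq_right h1, max_eq_left h1]
    refine main b a hb1 ha2 n3 n4 n1 n2 (by rwa [openSegment_symm]) ?_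
    intro z hz
    rw [segment_symm] at hz
    exact hdis z hz

end Pool.Agent.Lib.H94D.Poly
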