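import Pool.Agent.Lib.H25D.Indep3

/-!
# MP_273810_co : almost every point is independent over a countable field (library H94D, helper94)
-/

open Set MeasureTheory

namespace Pool.Agent.Lib.H94D.Null

open Pool.Agent.Lib.H25D (Indep3)

/-- the linear functional `b re + c im` -/
def lin (b c : ℝ) : ℂ →ₗ[ℝ] ℝ where
  toFun := fun q => b * q.re + c * q.im
  map_add' := fun x y => by simp only [Complex.add_re, Complex.add_im]; ring
  map_smul' := fun t x => by
    simp only [Complex.real_smul, Complex.mul_re, Complex.mul_im, Complex.ofReal_re, Complex.ofReal_im,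
      RingHom.id_apply, smul_eq_mul]
    ring

/-- lines have measure zero -/
theorem volume_line (a b c : ℝ) (h : ¬ (b = 0 ∧ c = 0)) :
    volume {q : ℂ | a + b * q.re + c * q.im = 0} = 0 := by
  by_cases hne : ∃ q₀ : ℂ, a + b * q₀.re + c * q₀.im = 0
  · obtain ⟨q₀, hq₀⟩ := hne
    have h1 : {q : ℂ | a + b * q.re + c * q.im = 0} =
        (fun q => q + (-q₀)) ⁻¹' ((LinearMap.ker (lin b c) : Submodule ℝ ℂ) : Set ℂ) := by
      ext q
      simp only [mem_preimage, SetLike.mem_coe, LinearMap.mem_ker, Set.mem_ofPred_eq]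
      show a + b * q.re + c * q.im = 0 ↔ b * (q + -q₀).re + c * (q + -q₀).im = 0
      simp only [Complex.add_re, Complex.add_im, Complex.neg_re, Complex.neg_im]
      constructor
      · intro h2; linarith
      · intro h2; linarith
    rw [h1, measure_preimage_add_right]
    apply Measure.addHaar_submodule
    intro h2
    apply h
    have h3 : ∀ q : ℂ, b * q.re + c * q.im = 0 := by
      intro q
      have h4 : q ∈ LinearMap.ker (lin b c) := by rw [h2]; exact Submodule.mem_top
      exact h4
    have h4 := h3 1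
    have h5 := h3 Complex.I
    simp only [Complex.one_re, Complex.one_im, Complex.I_re, Complex.I_im] at h4 h5
    constructor <;> linarith
  · have h1 : {q : ℂ | a + b * q.re + c * q.im = 0} = ∅ := by
      ext q
      simp only [Set.mem_ofPred_eq, mem_empty_iff_false, iff_false]
      exact fun h2 => hne ⟨q, h2⟩
    rw [h1, measure_empty]

/-- Almost every point is independent over a countable field. -/
theorem volume_not_indep3 (F : Subfield ℝ) (hF : (F : Set ℝ).Countable) :
    volume {q : ℂ | ¬ Indep3 F q} = 0 := by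
  have hsub : {q : ℂ | ¬ Indep3 F q} ⊆ ⋃ p ∈ ((F : Set ℝ) ×ˢ ((F : Set ℝ) ×ˢ (F : Set ℝ))) ∩
      {p : ℝ × ℝ × ℝ | ¬ (p.2.1 = 0 ∧ p.2.2 = 0)}, {q : ℂ | p.1 + p.2.1 * q.re + p.2.2 * q.im = 0} := by
    intro q hq
    have hq' : ¬ Indep3 F q := hq
    unfold Indep3 at hq'
    push Not at hq'
    obtain ⟨a, b, c, ha, hb, hc, h1, h2⟩ := hq'
    rw [mem_iUnion₂]
    refine ⟨(a, b, c), ⟨⟨ha, hb, hc⟩, ?_⟩, h1⟩
    rintro ⟨h3, h4⟩
    have h3' : b = 0 := h3
    have h4' : c = 0 := h4
    have h5 : a = 0 := by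
      rw [h3', h4'] at h1
      linarith
    exact h2 h5 h3' h4'
  refine measure_mono_null hsub ?_
  rw [measure_biUnion_null_iff (((hF.prod (hF.prod hF)).mono inter_subset_left))]
  rintro ⟨a, b, c⟩ ⟨_, h⟩
  exact volume_line a b c h

end Pool.Agent.Lib.H94D.Null
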