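import Pool.Agent.Lib.H6V.Defs
import Pool.Agent.Lib.H6V.H1
import Pool.Agent.Lib.H53M.KR

/-!
# H94D, part M2 of Theorem D: `h - b h(q^p)` modulo a non-ordinary prime
-/

namespace H94D

open PowerSeries H53M H6V

/-- `h` is `p`-integral if `p ∣ a p`. -/
theorem PI_hq (p k : ℕ) (hp : p.Prime) (hk : 4 ≤ k) (a : ℕ → ℤ) (h0 : a 0 = 0) (c : ℤ)
    (hH : ∀ n, a (p * n) = a p * a n - (if p ∣ n then c * (p : ℤ) ^ (k - 1) * a (n / p) else 0))
    (hpa : (p : ℤ) ∣ a p) : PI p (hq a) := by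
  intro n
  unfold hq
  rw [coeff_mk]
  rcases Nat.eq_zero_or_pos n with hn | hn
  · subst hn
    rw [h0]
    simp only [Int.cast_zero, zero_div, Rat.den_zero]
    intro h
    exact hp.one_lt.ne' (Nat.dvd_one.1 h)
  · obtain ⟨r, m, hm, hnr⟩ : ∃ r m, ¬ p ∣ m ∧ n = p ^ r * m :=
      Nat.exists_eq_pow_mul_and_not_dvd hn.ne' p hp.ne_one
    have hd : (p : ℤ) ^ r ∣ a n := by
      rcases Nat.eq_zero_or_pos r with h | h
      · rw [h, pow_zero]
        exact one_dvd _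
      · have h1 := rec_dvd a (fun _ => c) p k 1 hp le_rfl (by omega) hH (by rwa [pow_one]) n r h
          ⟨m, hnr⟩
        rwa [Nat.add_sub_cancel] at h1
    obtain ⟨b, hb⟩ := hd
    have hp0 : (p : ℚ) ≠ 0 := by exact_mod_cast hp.ne_zero
    have e : ((a n : ℤ) : ℚ) / (n : ℚ) = (b : ℚ) / (m : ℤ) := by
      rw [hb, hnr]
      push_cast
      rw [mul_div_mul_left _ _ (pow_ne_zero r hp0)]
    rw [e]
    intro h
    have h2 : ((b : ℚ) / (m : ℤ)).den ∣ m := by
      have := Rat.den_dvd b (m : ℤ)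
      exact_mod_cast this
    exact hm (h.trans h2)

/-- The reduction of `h - b h(q^p)`. -/
theorem hq_sub (p k : ℕ) [Fact p.Prime] (hp2 : 2 < p) (hk : 4 ≤ k) (a : ℕ → ℤ) (h0 : a 0 = 0)
    (c : ℤ)
    (hH : ∀ n, a (p * n) = a p * a n - (if p ∣ n then c * (p : ℤ) ^ (k - 1) * a (n / p) else 0))
    (e : ℤ) (hpa : a p = p * e) (hp0 : p ≠ 0) :
    redQ p (hq a) - C (e : ZMod p) * expand p hp0 (redQ p (hq a)) =
      PowerSeries.mk fun n => (a n : ZMod p) * (n : ZMod p) ^ (p - 2) := by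
  have hp : p.Prime := Fact.out
  have hI := PI_hq p k hp hk a h0 c hH ⟨e, hpa⟩
  have hI' : ∀ n : ℕ, ¬ p ∣ (((a n : ℤ) : ℚ) / (n : ℚ)).den := by
    intro n
    have h := hI n
    unfold hq at h
    rwa [coeff_mk] at h
  have hpq : (p : ℚ) ≠ 0 := by exact_mod_cast hp0
  ext n
  rw [map_sub, coeff_C_mul, coeff_expand, coeff_mk]
  unfold redQ hq
  simp only [coeff_mk]
  by_cases hpn : p ∣ n
  · rw [if_pos hpn]
    have hz : (n : ZMod p) = 0 := (ZMod.natCast_eq_zero_iff n p).2 hpn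
    rw [hz, zero_pow (by omega), mul_zero]
    obtain ⟨m, rfl⟩ := hpn
    rw [Nat.mul_div_cancel_left _ hp.pos]
    rcases Nat.eq_zero_or_pos m with hm | hm
    · subst hm
      simp [h0]
    have hm0 : (m : ℚ) ≠ 0 := by
      have := hm.ne'
      exact_mod_cast this
    by_cases hpm : p ∣ m
    · obtain ⟨l, rfl⟩ := hpm
      have hl : l ≠ 0 := by
        rintro rfl
        simp at hm
      have hl0 : (l : ℚ) ≠ 0 := by exact_mod_cast hl
      have h1 := hH (p * l)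
      rw [if_pos (Dvd.intro _ rfl), Nat.mul_div_cancel_left _ hp.pos, hpa] at h1
      have h2 : ((a (p * (p * l)) : ℤ) : ℚ) / ((p * (p * l) : ℕ) : ℚ) =
          ((e : ℤ) : ℚ) * (((a (p * l) : ℤ) : ℚ) / ((p * l : ℕ) : ℚ)) +
            (((-(c * (p : ℤ) ^ (k - 4)) * p : ℤ)) : ℚ) * (((a l : ℤ) : ℚ) / ((l : ℕ) : ℚ)) := by
        rw [h1]
        obtain ⟨t, rfl⟩ : ∃ t, k = t + 4 := ⟨k - 4, by omega⟩
        have e1 : t + 4 - 1 = t + 3 := by omega
        have e2 : t + 4 - 4 = t := by omega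
        rw [e1, e2]
        push_cast
        field_simp
        ring
      rw [h2, cast_add_pi (pi_mul (pi_int _) (hI' _)) (pi_mul (pi_int _) (hI' _)),
        cast_mul_pi (pi_int _) (hI' _), cast_mul_pi (pi_int _) (hI' _), Rat.cast_intCast,
        Rat.cast_intCast]
      push_cast
      rw [ZMod.natCast_self]
      ring
    · have h1 := hH m
      rw [if_neg hpm, sub_zero, hpa] at h1
      have h2 : ((a (p * m) : ℤ) : ℚ) / ((p * m : ℕ) : ℚ) =
          ((e : ℤ) : ℚ) * (((a m : ℤ) : ℚ) / ((m : ℕ) : ℚ)) := by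
        rw [h1]
        push_cast
        field_simp
      rw [h2, cast_mul_pi (pi_int _) (hI' _), Rat.cast_intCast]
      exact sub_self _
  · rw [if_neg hpn, mul_zero, sub_zero]
    have hz : (n : ZMod p) ≠ 0 := fun h => hpn ((ZMod.natCast_eq_zero_iff n p).1 h)
    have h1 : (n : ZMod p) ^ (p - 2) = (n : ZMod p)⁻¹ := by
      refine eq_inv_of_mul_eq_one_left ?_
      rw [← pow_succ]
      have e1 : p - 2 + 1 = p - 1 := by omega
      rw [e1]
      exact ZMod.pow_card_sub_one_eq_one hz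
    rw [h1, ← div_eq_mul_inv]
    have h2 := hI' n
    obtain ⟨x, hx⟩ : ∃ x : ℚ, x = ((a n : ℤ) : ℚ) / (n : ℚ) := ⟨_, rfl⟩
    rw [← hx] at h2 ⊢
    have hn0 : (n : ℚ) ≠ 0 := by
      intro h
      have : n = 0 := by exact_mod_cast h
      exact hpn (this ▸ dvd_zero p)
    have h3 : x * ((n : ℤ) : ℚ) = ((a n : ℤ) : ℚ) := by
      rw [hx]
      push_cast
      field_simp
    have h4 : ((x * ((n : ℤ) : ℚ) : ℚ) : ZMod p) = (((a n : ℤ) : ℚ) : ZMod p) := by rw [h3]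
    rw [cast_mul_pi h2 (pi_int _), Rat.cast_intCast, Rat.cast_intCast, Int.cast_natCast] at h4
    rw [eq_div_iff hz, h4]

end H94D
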