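import Pool.Agent.Lib.H94D.G0
import Pool.Agent.Lib.H6V.K1
import Pool.Agent.Lib.H6V.K2

/-!
# H94D, part M2 of Theorem D: `h(q^d) - b h(q^(dp))` is a modular form modulo `p`

The coefficients of `f(dz)` are `dil d a`; `f(dz)` is a form on `Γ₁(N L)` if `d ∣ L`.
-/

namespace H94D

open PowerSeries H53M H94M H53N H36H H6V

/-- The coefficients of `f(dz)`. -/
def dil (d : ℕ) (a : ℕ → ℤ) : ℕ → ℤ := fun n => if d ∣ n then a (n / d) else 0

theorem dil_zero (d : ℕ) {a : ℕ → ℤ} (h0 : a 0 = 0) : dil d a 0 = 0 := by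
  unfold dil
  rw [if_pos (dvd_zero d), Nat.zero_div, h0]

theorem dil_growth (d : ℕ) {a : ℕ → ℤ}
    (h : ∃ (C : ℝ) (K : ℕ), ∀ n, |(a n : ℝ)| ≤ C * ((n : ℝ) + 1) ^ K) :
    ∃ (C : ℝ) (K : ℕ), ∀ n, |(dil d a n : ℝ)| ≤ C * ((n : ℝ) + 1) ^ K := by
  obtain ⟨C, K, hC⟩ := h
  have hC0 : 0 ≤ C := by
    have := (abs_nonneg _).trans (hC 0)
    simpa using this
  refine ⟨C, K, fun n => ?_⟩
  unfold dil
  split_ifs with hd
  · refine (hC (n / d)).trans (mul_le_mul_of_nonneg_left ?_ hC0)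
    refine pow_le_pow_left₀ (by positivity) ?_ _
    have : ((n / d : ℕ) : ℝ) ≤ (n : ℝ) := by exact_mod_cast Nat.div_le_self n d
    linarith
  · simp only [Int.cast_zero, abs_zero]
    positivity

theorem dil_ev {d : ℕ} (hd : 0 < d) (a : ℕ → ℤ) (z : ℂ) :
    ev (fser (dil d a)) z = ev (fser a) (d * z) := by
  unfold ev fser
  simp only [coeff_mk]
  have hinj : Function.Injective (fun n : ℕ => d * n) := fun x y h =>
    Nat.eq_of_mul_eq_mul_left hd h
  rw [← hinj.tsum_eq]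
  · refine tsum_congr fun n => ?_
    unfold dil
    rw [if_pos (Dvd.intro n rfl), Nat.mul_div_cancel_left _ hd]
    congr 2
    push_cast
    ring
  · intro n hn
    by_contra hc
    apply hn
    have hdn : ¬ d ∣ n := by
      rintro ⟨m, rfl⟩
      exact hc ⟨m, rfl⟩
    change ((dil d a n : ℤ) : ℂ) * _ = 0
    unfold dil
    rw [if_neg hdn, Int.cast_zero, zero_mul]

private theorem g1_G (a : ℕ → ℤ) (h0 : a 0 = 0)
    (h : ∃ (C : ℝ) (K : ℕ), ∀ n, |(a n : ℝ)| ≤ C * ((n : ℝ) + 1) ^ K) (z : Fin 1 → ℂ) :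
    (karr a h).G z = ev (fser a) (z 0) := by
  unfold KArr.G ev fser
  have h1 : ∀ ξ : {n : ℕ // 0 < n}, ((karr a h).c ξ : ℂ) *
      Complex.exp (2 * Real.pi * Complex.I * ∑ i, ((karr a h).nu ξ i : ℂ) * z i) =
      (fun n : ℕ => (a n : ℂ) * Complex.exp (2 * Real.pi * Complex.I * (n * z 0))) ξ := by
    intro ξ
    change (a ξ.1 : ℂ) * Complex.exp (2 * Real.pi * Complex.I *
      ∑ i : Fin 1, (((ξ.1 : ℕ) : ℝ) : ℂ) * z i) = _
    rw [Fin.sum_univ_one, Complex.ofReal_natCast]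
  rw [tsum_congr h1]
  have h2 : Function.support (fun n : ℕ =>
      (a n : ℂ) * Complex.exp (2 * Real.pi * Complex.I * (n * z 0))) ⊆ {n : ℕ | 0 < n} := by
    intro n hn
    by_contra hc
    have hn0 : n = 0 := by
      have : ¬ 0 < n := hc
      omega
    apply hn
    change (a n : ℂ) * _ = 0
    rw [hn0, h0, Int.cast_zero, zero_mul]
  have h3 := tsum_subtype_eq_of_support_subset h2
  refine Eq.trans h3 (tsum_congr fun n => ?_)
  rw [PowerSeries.coeff_mk]

theorem dil_trans {N k : ℕ} {a : ℕ → ℤ} (hF : Frm N k a) {d L : ℕ} (hd : d ∣ L) (hL : L ≠ 0) :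
    DTransI1 (N * L) k (karr (dil d a) (dil_growth d hF.growth)).G := by
  intro A B C D hdet hC hD z hz
  have hd0 : 0 < d := Nat.pos_of_ne_zero fun h => hL (by rw [h] at hd; exact Nat.eq_zero_of_zero_dvd hd)
  rw [g1_G _ (dil_zero d hF.zero), g1_G _ (dil_zero d hF.zero), Fin.prod_univ_one,
    dil_ev hd0, dil_ev hd0]
  obtain ⟨t, rfl⟩ := hd
  obtain ⟨c, rfl⟩ := hC
  have hdc : (d : ℂ) ≠ 0 := by
    have := hd0.ne'
    exact_mod_cast this
  have h1 := hF.trans A (B * d) ((N * t : ℕ) * c) D (by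
    rw [← hdet]
    push_cast
    ring) (by
      push_cast
      exact ⟨t * c, by ring⟩) ((Int.natCast_dvd_natCast.2 (Nat.dvd_mul_right N (d * t))).trans hD)
    ((d : ℂ) * z 0) (by
      have h2 := hz 0
      have h3 : ((d : ℂ) * z 0).im = d * (z 0).im := by
        rw [Complex.mul_im, Complex.natCast_re, Complex.natCast_im]
        ring
      rw [h3]
      have : (0 : ℝ) < d := by exact_mod_cast hd0
      positivity)
  have e1 : (d : ℂ) * (((A : ℂ) * z 0 + B) / ((((N * (d * t) : ℕ) : ℤ) * c : ℤ) * z 0 + D)) =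
      ((A : ℂ) * (d * z 0) + ((B * d : ℤ) : ℂ)) /
        (((((N * t : ℕ) : ℤ) * c : ℤ) : ℂ) * (d * z 0) + D) := by
    rw [← mul_div_assoc]
    congr 1
    · push_cast
      ring
    · push_cast
      ring
  have e2 : ((((N * (d * t) : ℕ) : ℤ) * c : ℤ) : ℂ) * z 0 + D =
      (((((N * t : ℕ) : ℤ) * c : ℤ) : ℂ) * (d * z 0) + D) := by
    push_cast
    ring
  rw [e1, h1, e2]

/-- `h(q^d) - b h(q^(dp))` modulo `p`. -/
theorem G_mem {N k : ℕ} [NeZero N] (hk : 4 ≤ k) {a : ℕ → ℤ} (hF : Frm N k a) (p : ℕ)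
    [Fact p.Prime] (hp : 5 < p) (c : ℤ)
    (hH : ∀ n, a (p * n) = a p * a n - (if p ∣ n then c * (p : ℤ) ^ (k - 1) * a (n / p) else 0))
    (e : ℤ) (hpa : a p = p * e) {d L : ℕ} (hd : d ∣ L) (hL : L ≠ 0) (hpL : ¬ p ∣ L) (hd0 : d ≠ 0) :
    redQ p (expand d hd0 (hq a)) -
      C (e : ZMod p) * expand p (NeZero.ne p) (redQ p (expand d hd0 (hq a))) ∈
        MN1 (N * L) p (k - 2 + (p - 1) * (k - 1)) := by
  have hNL : NeZero (N * L) := ⟨Nat.mul_ne_zero (NeZero.ne N) hL⟩
  have hpp : p.Prime := Fact.out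
  have hpd : (d : ZMod p) ≠ 0 := fun h =>
    hpL (((ZMod.natCast_eq_zero_iff d p).1 h).trans hd)
  -- the reduction of the dilation
  have h1 : redQ p (expand d hd0 (hq a)) = expand d hd0 (redQ p (hq a)) := by
    ext n
    unfold redQ
    rw [coeff_mk, coeff_expand, coeff_expand]
    split_ifs
    · rw [coeff_mk]
    · exact Rat.cast_zero
  have h2 : expand p (NeZero.ne p) (expand d hd0 (redQ p (hq a))) =
      expand d hd0 (expand p (NeZero.ne p) (redQ p (hq a))) := by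
    rw [← expand_mul, ← expand_mul]
    congr 1
    · congr 1
      exact mul_comm p d
  have h3 : C (e : ZMod p) * expand d hd0 (expand p (NeZero.ne p) (redQ p (hq a))) =
      expand d hd0 (C (e : ZMod p) * expand p (NeZero.ne p) (redQ p (hq a))) := by
    rw [map_mul, expand_C]
  rw [h1, h2, h3, ← map_sub, hq_sub p k (by omega) hk a hF.zero c hH e hpa (NeZero.ne p)]
  have h4 := (karr (dil d a) (dil_growth d hF.growth)).gp_MN1 (N := N * L) (k := k) (by omega)
    (dil_trans hF hd hL) p hp (by rw [Fintype.card_fin]; omega)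
  have e0 : Fintype.card (Fin 1) * k + 2 * Fintype.card (Fin 1) - 4 +
      (p - 1) * (2 * Fintype.card (Fin 1) + k - 3) = k - 2 + (p - 1) * (k - 1) := by
    rw [Fintype.card_fin, one_mul, mul_one]
    have e1 : k + 2 - 4 = k - 2 := by omega
    have e2 : 2 + k - 3 = k - 1 := by omega
    rw [e1, e2]
  rw [e0] at h4
  have h5 : expand d hd0 (PowerSeries.mk fun n => (a n : ZMod p) * (n : ZMod p) ^ (p - 2)) =
      (d : ZMod p) • redZ p ((karr (dil d a) (dil_growth d hF.growth)).gp p) := by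
    ext n
    rw [coeff_expand, coeff_smul, smul_eq_mul, coeff_map, KArr.gp, coeff_mk, coeff_mk]
    have h6 : ∑ ξ ∈ (karr (dil d a) (dil_growth d hF.growth)).fib n,
        (karr (dil d a) (dil_growth d hF.growth)).c ξ *
          ((karr (dil d a) (dil_growth d hF.growth)).q2 ξ *
            (karr (dil d a) (dil_growth d hF.growth)).nm ξ ^ (p - 2)) =
        dil d a n * (n : ℤ) ^ (p - 2) := by
      by_cases hn : 0 < n
      · have h7 : (karr (dil d a) (dil_growth d hF.growth)).fib n = {⟨n, hn⟩} := dif_pos hn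
        rw [h7, Finset.sum_singleton]
        change dil d a n * (1 * ((n : ℕ) : ℤ) ^ (p - 2)) = _
        rw [one_mul]
      · have h7 : (karr (dil d a) (dil_growth d hF.growth)).fib n = ∅ := dif_neg hn
        have h8 : n = 0 := by omega
        rw [h7, Finset.sum_empty, h8, dil_zero d hF.zero, zero_mul]
    rw [h6, eq_intCast]
    by_cases hdn : d ∣ n
    · rw [if_pos hdn]
      unfold dil
      rw [if_pos hdn]
      obtain ⟨m, rfl⟩ := hdn
      rw [Nat.mul_div_cancel_left _ (Nat.pos_of_ne_zero hd0)]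
      push_cast
      rw [mul_pow]
      have h9 : (d : ZMod p) * (d : ZMod p) ^ (p - 2) = 1 := by
        rw [← pow_succ']
        have e1 : p - 2 + 1 = p - 1 := by omega
        rw [e1]
        exact ZMod.pow_card_sub_one_eq_one hpd
      linear_combination (-(a m : ZMod p) * (m : ZMod p) ^ (p - 2)) * h9
    · rw [if_neg hdn]
      unfold dil
      rw [if_neg hdn]
      simp
  rw [h5]
  exact Submodule.smul_mem _ _ h4

end H94D
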