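import Pool.Agent.Lib.H94D.G2

/-!
# H94D: growth and denominators of the series `h_s`
-/

namespace H94D

open PowerSeries H53M H94M H53N H6V

theorem hs_coeff (a : ℕ → ℤ) {r : ℕ} (d : Fin r → ℕ) (hd : ∀ s, d s ≠ 0) (s : Fin r) (n : ℕ) :
    coeff n (hs a d hd s) = if d s ∣ n then ((a (n / d s) : ℤ) : ℚ) / ((n / d s : ℕ) : ℚ) else 0 := by
  unfold hs hq
  rw [coeff_expand]
  split_ifs
  · rw [coeff_mk]
  · rfl

theorem hs_zero {a : ℕ → ℤ} (h0 : a 0 = 0) {r : ℕ} (d : Fin r → ℕ) (hd : ∀ s, d s ≠ 0)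
    (s : Fin r) : coeff 0 (hs a d hd s) = 0 := by
  rw [hs_coeff, if_pos (dvd_zero _), Nat.zero_div, h0]
  simp

/-- Growth of the coefficients, with constants independent of `r` and `d`. -/
theorem hs_growth {a : ℕ → ℤ}
    (h : ∃ (C : ℝ) (K : ℕ), ∀ n, |(a n : ℝ)| ≤ C * ((n : ℝ) + 1) ^ K) :
    ∃ (C : ℝ) (K : ℕ), 1 ≤ C ∧ ∀ (r : ℕ) (d : Fin r → ℕ) (hd : ∀ s, d s ≠ 0) (s : Fin r) (n : ℕ),
      |((coeff n (hs a d hd s) : ℚ) : ℝ)| ≤ C * ((n : ℝ) + 1) ^ K := by
  obtain ⟨C, K, hC⟩ := h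
  refine ⟨max C 1, K, le_max_right _ _, fun r d hd s n => ?_⟩
  rw [hs_coeff]
  split_ifs with hdn
  · have h1 : |((((a (n / d s) : ℤ) : ℚ) / ((n / d s : ℕ) : ℚ) : ℚ) : ℝ)| ≤ |(a (n / d s) : ℝ)| := by
      push_cast
      rw [abs_div]
      rcases Nat.eq_zero_or_pos (n / d s) with h0 | h0
      · rw [h0]
        simp
      · refine div_le_self (abs_nonneg _) ?_
        rw [Nat.abs_cast]
        exact_mod_cast h0
    refine h1.trans ((hC _).trans ?_)
    have h2 : (((n / d s : ℕ) : ℝ) + 1) ^ K ≤ ((n : ℝ) + 1) ^ K := by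
      refine pow_le_pow_left₀ (by positivity) ?_ _
      have : ((n / d s : ℕ) : ℝ) ≤ (n : ℝ) := by exact_mod_cast Nat.div_le_self n (d s)
      linarith
    exact (mul_le_mul_of_nonneg_right (le_max_left C 1) (by positivity)).trans
      (mul_le_mul_of_nonneg_left h2 (by positivity))
  · rw [Rat.cast_zero, abs_zero]
    positivity

/-- Denominators of the coefficients. -/
theorem hs_den {a : ℕ → ℤ} {r : ℕ} (d : Fin r → ℕ) (hd : ∀ s, d s ≠ 0) (s : Fin r) (n p : ℕ)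
    (hp : p.Prime) : p ^ padicValNat p (coeff n (hs a d hd s)).den ≤ n + 1 := by
  rw [hs_coeff]
  split_ifs with hdn
  · obtain ⟨x, hx⟩ : ∃ x : ℚ, x = ((a (n / d s) : ℤ) : ℚ) / ((n / d s : ℕ) : ℚ) := ⟨_, rfl⟩
    rw [← hx]
    have h1 : p ^ padicValNat p x.den ≤ x.den := by
      have := pow_padicValNat_dvd (p := p) (n := x.den)
      exact Nat.le_of_dvd x.den_pos this
    rcases Nat.eq_zero_or_pos (n / d s) with h0 | h0
    · have h2 : x = 0 := by
        rw [hx, h0]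
        simp
      rw [h2, Rat.den_zero] at h1 ⊢
      omega
    · have h2 : x.den ∣ n / d s := by
        have h3 : ((x.den : ℕ) : ℤ) ∣ ((n / d s : ℕ) : ℤ) := by
          have h4 := Rat.den_dvd (a (n / d s)) ((n / d s : ℕ) : ℤ)
          rw [Rat.divInt_eq_div, Int.cast_natCast] at h4
          rw [hx]
          exact h4
        exact_mod_cast h3
      have h3 := Nat.le_of_dvd h0 h2
      have h4 := Nat.div_le_self n (d s)
      omega
  · rw [Rat.den_zero, padicValNat_one_right, pow_zero]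
    omega

end H94D
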