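import Pool.Agent.Lib.H94D.M1
import Pool.Agent.Lib.H36D.Defs
import Pool.Agent.Lib.H53M.KR
import Pool.Agent.Lib.H94M.TS

/-!
# H94D, parts M1, M2 of Theorem D: the auxiliary function modulo a good prime

* `gg_pi` : the numbers `gg` are `p`-integral if the series `h_s` are;
* `coeff_FA` : the coefficients of `A(h_s - b h_s(q^p))` modulo `p`;
* `van` : they all vanish (Sturm bound).
-/

namespace H94D

open Finset PowerSeries H53M H36D

variable {r : ℕ} {p : ℕ} [Fact p.Prime]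

theorem PI_prod {ι : Type*} (s : Finset ι) (f : ι → PowerSeries ℚ) (h : ∀ i ∈ s, PI p (f i)) :
    PI p (∏ i ∈ s, f i) := by
  classical
  induction s using Finset.induction_on with
  | empty =>
    have := PI_toQ (p := p) 1
    rwa [map_one] at this
  | insert a s ha ih =>
    rw [Finset.prod_insert ha]
    exact PI_mul (h a (Finset.mem_insert_self a s)) (ih fun i hi => h i (Finset.mem_insert_of_mem hi))

theorem redQ_prod {ι : Type*} (s : Finset ι) (f : ι → PowerSeries ℚ) (h : ∀ i ∈ s, PI p (f i)) :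
    redQ p (∏ i ∈ s, f i) = ∏ i ∈ s, redQ p (f i) := by
  classical
  induction s using Finset.induction_on with
  | empty =>
    have := kredQ_toQ (p := p) 1
    rwa [map_one, map_one] at this
  | insert a s ha ih =>
    rw [Finset.prod_insert ha, Finset.prod_insert ha,
      kredQ_mul (h a (Finset.mem_insert_self a s))
        (PI_prod s f fun i hi => h i (Finset.mem_insert_of_mem hi)),
      ih fun i hi => h i (Finset.mem_insert_of_mem hi)]

theorem PI_Hm {h : Fin r → PowerSeries ℚ} (hI : ∀ s, PI p (h s)) (g : Fin r → ℕ) :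
    PI p (Hm h g) := PI_prod _ _ fun s _ => PI_pow (hI s) _

theorem redQ_Hm {h : Fin r → PowerSeries ℚ} (hI : ∀ s, PI p (h s)) (g : Fin r → ℕ) :
    redQ p (Hm h g) = Hm (fun s => redQ p (h s)) g := by
  unfold Hm
  rw [redQ_prod _ _ fun s _ => PI_pow (hI s) _]
  exact Finset.prod_congr rfl fun s _ => kredQ_pow (hI s) _

theorem coeff_redQ (f : PowerSeries ℚ) (n : ℕ) :
    coeff n (redQ p f) = ((coeff n f : ℚ) : ZMod p) := by
  unfold redQ
  rw [coeff_mk]

theorem gc_term_pi {h : Fin r → PowerSeries ℚ} (hI : ∀ s, PI p (h s)) (W n j l : ℕ)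
    (t : (Fin r → ℕ) × ℕ) (be : Fin r → ℕ) :
    ¬ p ∣ ((-1) ^ l * (bc t.1 be : ℚ) *
      (coeff j (Hm h be) * coeff n (toQ (Lv W t.2) * Hm h (t.1 - be))) : ℚ).den := by
  have h1 : ((-1) ^ l * (bc t.1 be : ℚ) : ℚ) = (((-1) ^ l * (bc t.1 be : ℤ) : ℤ) : ℚ) := by
    push_cast
    rfl
  rw [h1]
  exact pi_mul (pi_int _) (pi_mul (PI_Hm hI be j) (PI_mul (PI_toQ _) (PI_Hm hI _) n))

theorem gc_pi {h : Fin r → PowerSeries ℚ} (hI : ∀ s, PI p (h s)) (W n j l : ℕ)
    (t : (Fin r → ℕ) × ℕ) : ¬ p ∣ (gc h W n j l t).den :=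
  pi_sum _ _ fun be _ => gc_term_pi hI W n j l t be

theorem gg_pi {h : Fin r → PowerSeries ℚ} (hI : ∀ s, PI p (h s)) (J W : ℕ)
    (x : (Fin r → ℕ) × ℕ → ℤ) (n j l : ℕ) : ¬ p ∣ (gg h J W x n j l).den :=
  pi_sum _ _ fun t _ => pi_mul (pi_int _) (gc_pi hI W n j l t)

theorem cast_gc {h : Fin r → PowerSeries ℚ} (hI : ∀ s, PI p (h s)) (W n j l : ℕ)
    (t : (Fin r → ℕ) × ℕ) : ((gc h W n j l t : ℚ) : ZMod p) =
      ∑ be ∈ (subs t.1).filter (fun be => ∑ s, be s = l),
        (-1) ^ l * (bc t.1 be : ZMod p) * (coeff j (Hm (fun s => redQ p (h s)) be) *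
          coeff n (redZ p (Lv W t.2) * Hm (fun s => redQ p (h s)) (t.1 - be))) := by
  unfold gc
  rw [cast_sum_pi _ _ fun be _ => gc_term_pi hI W n j l t be]
  refine Finset.sum_congr rfl fun be _ => ?_
  have h1 : ((-1) ^ l * (bc t.1 be : ℚ) : ℚ) = (((-1) ^ l * (bc t.1 be : ℤ) : ℤ) : ℚ) := by
    push_cast
    rfl
  rw [h1, cast_mul_pi (pi_int _) (pi_mul (PI_Hm hI be j) (PI_mul (PI_toQ _) (PI_Hm hI _) n)),
    cast_mul_pi (PI_Hm hI be j) (PI_mul (PI_toQ _) (PI_Hm hI _) n), ← coeff_redQ, ← coeff_redQ,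
    redQ_Hm hI, kredQ_mul (PI_toQ _) (PI_Hm hI _), kredQ_toQ, redQ_Hm hI, Rat.cast_intCast]
  push_cast
  rfl

/-- The function `A(h_s - b h_s(q^p))` modulo `p`. -/
noncomputable def FA (h : Fin r → PowerSeries ℚ) (J W : ℕ) (x : (Fin r → ℕ) × ℕ → ℤ)
    (b : ZMod p) : PowerSeries (ZMod p) :=
  ∑ t ∈ Ix r J W, (x t : ZMod p) • (redZ p (Lv W t.2) *
    ∏ s, (redQ p (h s) - C b * expand p (NeZero.ne p) (redQ p (h s))) ^ t.1 s)

theorem sum_subs_eq {R : Type*} [AddCommMonoid R] {J : ℕ} {al : Fin r → ℕ} (ha : ∑ s, al s = J)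
    (f : (Fin r → ℕ) → R) :
    ∑ be ∈ subs al, f be = ∑ l ∈ range (J + 1), ∑ be ∈ (subs al).filter (fun be => ∑ s, be s = l), f be := by
  refine (Finset.sum_fiberwise_of_maps_to (fun be hbe => ?_) f).symm
  unfold subs at hbe
  rw [Fintype.mem_piFinset] at hbe
  rw [mem_range]
  have h1 : ∑ s, be s ≤ ∑ s, al s := Finset.sum_le_sum fun s _ => by
    have := hbe s
    rw [mem_range] at this
    omega
  omega

theorem coeff_FA {h : Fin r → PowerSeries ℚ} (hI : ∀ s, PI p (h s)) (J W : ℕ)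
    (x : (Fin r → ℕ) × ℕ → ℤ) (b : ZMod p) (m : ℕ) :
    coeff m (FA h J W x b) = ∑ j ∈ range (m / p + 1), ∑ l ∈ range (J + 1),
      ((gg h J W x (m - j * p) j l : ℚ) : ZMod p) * b ^ l := by
  have hgg : ∀ n j l, ((gg h J W x n j l : ℚ) : ZMod p) =
      ∑ t ∈ Ix r J W, (x t : ZMod p) * ((gc h W n j l t : ℚ) : ZMod p) := by
    intro n j l
    unfold gg
    rw [cast_sum_pi _ _ fun t _ => pi_mul (pi_int _) (gc_pi hI W n j l t)]
    refine Finset.sum_congr rfl fun t _ => ?_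
    rw [cast_mul_pi (pi_int _) (gc_pi hI W n j l t), Rat.cast_intCast]
  unfold FA
  rw [map_sum]
  have hL : ∀ t ∈ Ix r J W, coeff m ((x t : ZMod p) • (redZ p (Lv W t.2) *
      ∏ s, (redQ p (h s) - C b * expand p (NeZero.ne p) (redQ p (h s))) ^ t.1 s)) =
      ∑ j ∈ range (m / p + 1), ∑ l ∈ range (J + 1),
        (x t : ZMod p) * ((gc h W (m - j * p) j l t : ℚ) : ZMod p) * b ^ l := by
    intro t ht
    unfold Ix at ht
    rw [mem_product, mem_piAntidiag] at ht
    rw [coeff_smul, smul_eq_mul, prod_sub_pow, Finset.mul_sum, map_sum]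
    change (x t : ZMod p) * ∑ be ∈ subs t.1, _ = _
    have h1 : ∀ be : Fin r → ℕ, coeff m (redZ p (Lv W t.2) *
        (C (((-1) ^ (∑ s, be s) * b ^ (∑ s, be s)) * ((∏ s, (t.1 s).choose (be s) : ℕ) : ZMod p)) *
          ((∏ s, redQ p (h s) ^ (t.1 s - be s)) *
            ∏ s, (expand p (NeZero.ne p) (redQ p (h s))) ^ be s))) =
        ∑ j ∈ range (m / p + 1), (-1) ^ (∑ s, be s) * (bc t.1 be : ZMod p) *
          (coeff j (Hm (fun s => redQ p (h s)) be) *
          coeff (m - j * p) (redZ p (Lv W t.2) * Hm (fun s => redQ p (h s)) (t.1 - be))) *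
            b ^ (∑ s, be s) := by
      intro be
      have h2 : ∏ s, (expand p (NeZero.ne p) (redQ p (h s))) ^ be s =
          expand p (NeZero.ne p) (Hm (fun s => redQ p (h s)) be) := by
        unfold Hm
        rw [map_prod]
        exact Finset.prod_congr rfl fun s _ => (map_pow _ _ _).symm
      have h3 : ∏ s, redQ p (h s) ^ (t.1 s - be s) =
          Hm (fun s => redQ p (h s)) (t.1 - be) := rfl
      rw [h2, h3, mul_left_comm, coeff_C_mul, ← mul_assoc, coeff_mul_expand, Finset.mul_sum]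
      refine Finset.sum_congr rfl fun j _ => ?_
      unfold bc
      ring
    rw [Finset.sum_congr rfl fun be _ => h1 be, Finset.sum_comm, Finset.mul_sum]
    refine Finset.sum_congr rfl fun j _ => ?_
    rw [sum_subs_eq ht.1.1, Finset.mul_sum]
    refine Finset.sum_congr rfl fun l _ => ?_
    rw [cast_gc hI, Finset.mul_sum, Finset.mul_sum, Finset.sum_mul]
    refine Finset.sum_congr rfl fun be hbe => ?_
    rw [(mem_filter.1 hbe).2]
    ring
  rw [Finset.sum_congr rfl hL, Finset.sum_comm]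
  refine Finset.sum_congr rfl fun j _ => ?_
  rw [Finset.sum_comm]
  refine Finset.sum_congr rfl fun l _ => ?_
  rw [hgg, Finset.sum_mul]

end H94D
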