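import Pool.Agent.Lib.H94D.M2

/-!
# H94D, part M2 of Theorem D: vanishing of the auxiliary function modulo a good prime
-/

namespace H94D

open Finset PowerSeries H53M H94M H36D

variable {r : ℕ} {p : ℕ} [Fact p.Prime]

theorem prod_mem {μ s0 : ℕ} {M : ℕ → Submodule (ZMod p) (PowerSeries (ZMod p))}
    (hM : MFam p μ s0 M) {ι : Type*} (S : Finset ι) (G : ι → PowerSeries (ZMod p)) (al : ι → ℕ)
    (kap : ℕ) (hG : ∀ s ∈ S, G s ∈ M kap) : ∏ s ∈ S, G s ^ al s ∈ M ((∑ s ∈ S, al s) * kap) := by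
  classical
  induction S using Finset.induction_on with
  | empty =>
    rw [Finset.prod_empty, Finset.sum_empty, Nat.zero_mul]
    exact hM.le 0 (one_mem_MP_zero p)
  | insert a s ha ih =>
    rw [Finset.prod_insert ha, Finset.sum_insert ha, Nat.add_mul]
    exact hM.mul _ _ _ _ (hM.pow (hG a (Finset.mem_insert_self a s)) (al a))
      (ih fun i hi => hG i (Finset.mem_insert_of_mem hi))

theorem Lv_mem {μ s0 : ℕ} {M : ℕ → Submodule (ZMod p) (PowerSeries (ZMod p))}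
    (hM : MFam p μ s0 M) {W i : ℕ} (hi : i ≤ W) : redZ p (Lv W i) ∈ M (12 * W) := by
  apply hM.le
  refine Submodule.subset_span ⟨3 * (W - i), 0, i, by omega, ?_⟩
  unfold Lv
  rw [pow_zero, mul_one]

theorem FA_mem {μ s0 : ℕ} {M : ℕ → Submodule (ZMod p) (PowerSeries (ZMod p))}
    (hM : MFam p μ s0 M) (h : Fin r → PowerSeries ℚ) (J W : ℕ) (x : (Fin r → ℕ) × ℕ → ℤ)
    (b : ZMod p) (kap : ℕ)
    (hG : ∀ s, redQ p (h s) - C b * expand p (NeZero.ne p) (redQ p (h s)) ∈ M kap) :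
    FA h J W x b ∈ M (12 * W + J * kap) := by
  unfold FA
  refine Submodule.sum_mem _ fun t ht => Submodule.smul_mem _ _ ?_
  unfold Ix at ht
  rw [mem_product, mem_piAntidiag, mem_range] at ht
  refine hM.mul _ _ _ _ (Lv_mem hM (by omega)) ?_
  have h1 := prod_mem hM Finset.univ
    (fun s => redQ p (h s) - C b * expand p (NeZero.ne p) (redQ p (h s))) t.1 kap
    (fun s _ => hG s)
  rwa [ht.1.1] at h1

/-- The auxiliary function vanishes modulo `p`. -/
theorem van {μ s0 : ℕ} {M : ℕ → Submodule (ZMod p) (PowerSeries (ZMod p))}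
    (hM : MFam p μ s0 M) {h : Fin r → PowerSeries ℚ} (hI : ∀ s, PI p (h s)) (J W X T : ℕ)
    (x : (Fin r → ℕ) × ℕ → ℤ) (b : ZMod p) (kap : ℕ)
    (hG : ∀ s, redQ p (h s) - C b * expand p (NeZero.ne p) (redQ p (h s)) ∈ M kap)
    (hx : ∀ n j l : ℕ, n + j * X ≤ T → gg h J W x n j l = 0) (hX : X ≤ p)
    (hT : μ * (12 * W + J * kap) / 12 + s0 ≤ T) : FA h J W x b = 0 := by
  refine hM.sturm _ _ (FA_mem hM h J W x b kap hG) fun m hm => ?_
  rw [coeff_FA hI]
  refine Finset.sum_eq_zero fun j hj => Finset.sum_eq_zero fun l _ => ?_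
  rw [mem_range] at hj
  have hp : 0 < p := (Fact.out : p.Prime).pos
  have h1 : j * p ≤ m := by
    have h2 : j ≤ m / p := by omega
    exact (Nat.le_div_iff_mul_le hp).1 h2
  have h2 : j * X ≤ j * p := Nat.mul_le_mul_left j hX
  rw [hx (m - j * p) j l (by omega), Rat.cast_zero, zero_mul]

/-- The congruences for the end game. -/
theorem congr_of_van {h : Fin r → PowerSeries ℚ} (hI : ∀ s, PI p (h s)) (J W : ℕ)
    (x : (Fin r → ℕ) × ℕ → ℤ) (e : ℤ) (hF : FA h J W x (e : ZMod p) = 0) (D : ℤ) (m : ℕ)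
    (G : ℕ → ℕ → ℕ → ℤ)
    (hG : ∀ j l : ℕ, j * p ≤ m → l ≤ J →
      (D : ℚ) * gg h J W x (m - j * p) j l = (G (m - j * p) j l : ℤ)) :
    (p : ℤ) ∣ ∑ j ∈ range (m / p + 1), ∑ l ∈ range (J + 1), G (m - j * p) j l * e ^ l := by
  have hp : 0 < p := (Fact.out : p.Prime).pos
  rw [← ZMod.intCast_zmod_eq_zero_iff_dvd]
  have h1 := congrArg (fun f => (D : ZMod p) * coeff m f) hF
  simp only [map_zero, mul_zero] at h1
  rw [coeff_FA hI, Finset.mul_sum] at h1
  rw [← h1, Int.cast_sum]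
  refine Finset.sum_congr rfl fun j hj => ?_
  rw [Int.cast_sum, Finset.mul_sum]
  refine Finset.sum_congr rfl fun l hl => ?_
  rw [mem_range] at hj hl
  have h2 : j * p ≤ m := (Nat.le_div_iff_mul_le hp).1 (by omega)
  have h3 := hG j l h2 (by omega)
  have h4 : (((D : ℤ) : ℚ) : ZMod p) * ((gg h J W x (m - j * p) j l : ℚ) : ZMod p) =
      (((G (m - j * p) j l : ℤ) : ℚ) : ZMod p) := by
    rw [← h3, cast_mul_pi (pi_int _) (gg_pi hI J W x _ j l)]
  rw [Rat.cast_intCast, Rat.cast_intCast] at h4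
  push_cast
  rw [← h4]
  ring

end H94D
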