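import Pool.Agent.Lib.H94D.M3
import Pool.Agent.Lib.H94D.G1

/-!
# H94D: Theorem D, part (M), final form

`hs a d` : the series `h(q^(d_s))`, `h = Σ (a(n)/n) qⁿ`; `CT N k L = 12 (mu1 (N L) + 1) k`.
For a prime `p` in `(X, 12 X]`, prime to `L`, with `a(p) = p e` and the Hecke recursion at `p`:
if the auxiliary function vanishes to the order `CT J X` (in the sense of `H36D.aux`) and `W ≤ J X`,
then it vanishes modulo `p`.
-/

namespace H94D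

open Finset PowerSeries H53M H94M H53N H36D H6V

/-- The series `h(q^(d_s))`. -/
noncomputable def hs (a : ℕ → ℤ) {r : ℕ} (d : Fin r → ℕ) (hd : ∀ s, d s ≠ 0) :
    Fin r → PowerSeries ℚ := fun s => expand (d s) (hd s) (hq a)

/-- The constant of the Sturm bound. -/
noncomputable def CT (N k L : ℕ) : ℕ := 12 * (mu1 (N * L) + 1) * k

theorem one_le_CT (N k L : ℕ) (hk : 1 ≤ k) : 1 ≤ CT N k L := by
  unfold CT
  have : 1 ≤ (mu1 (N * L) + 1) * k := Nat.mul_pos (Nat.succ_pos _) hk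
  rw [mul_assoc]
  omega

theorem PI_hs {p k : ℕ} (hp : p.Prime) (hk : 4 ≤ k) {a : ℕ → ℤ} (h0 : a 0 = 0) (c : ℤ)
    (hH : ∀ n, a (p * n) = a p * a n - (if p ∣ n then c * (p : ℤ) ^ (k - 1) * a (n / p) else 0))
    (hpa : (p : ℤ) ∣ a p) {r : ℕ} (d : Fin r → ℕ) (hd : ∀ s, d s ≠ 0) (s : Fin r) :
    PI p (hs a d hd s) := by
  intro n
  unfold hs
  rw [coeff_expand]
  split_ifs
  · exact PI_hq p k hp hk a h0 c hH hpa _
  · rw [Rat.den_zero]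
    intro h
    exact hp.one_lt.ne' (Nat.dvd_one.1 h)

/-- The auxiliary function vanishes modulo the good primes. -/
theorem FA_zero {N k : ℕ} [NeZero N] (hk : 4 ≤ k) {a : ℕ → ℤ} (hF : Frm N k a) {r : ℕ}
    (d : Fin r → ℕ) (hd : ∀ s, d s ≠ 0) {L : ℕ} (hL : L ≠ 0) (hdL : ∀ s, d s ∣ L)
    (p : ℕ) [Fact p.Prime] (hp : 5 < p) (hpL : ¬ p ∣ L) (c : ℤ)
    (hH : ∀ n, a (p * n) = a p * a n - (if p ∣ n then c * (p : ℤ) ^ (k - 1) * a (n / p) else 0))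
    (e : ℤ) (hpa : a p = p * e) (J W X : ℕ) (hX : X ≤ p) (hX' : p ≤ 12 * X) (hW : W ≤ J * X)
    (x : (Fin r → ℕ) × ℕ → ℤ)
    (hx : ∀ n j l : ℕ, n + j * X ≤ CT N k L * J * X → gg (hs a d hd) J W x n j l = 0) :
    FA (hs a d hd) J W x (e : ZMod p) = 0 := by
  have hNL : NeZero (N * L) := ⟨Nat.mul_ne_zero (NeZero.ne N) hL⟩
  refine van (mfam_MN1 (N * L) p) (PI_hs Fact.out hk hF.zero c hH ⟨e, hpa⟩ d hd) J W X _ x _
    (k - 2 + (p - 1) * (k - 1)) (fun s => G_mem hk hF p hp c hH e hpa (hdL s) hL hpL (hd s)) hx hX ?_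
  unfold CT
  obtain ⟨m, hm⟩ : ∃ m, m = mu1 (N * L) + 1 := ⟨_, rfl⟩
  rw [← hm, add_zero]
  have h1 : k - 2 + (p - 1) * (k - 1) ≤ 12 * X * (k - 1) := by
    obtain ⟨q, rfl⟩ : ∃ q, p = q + 1 := ⟨p - 1, by omega⟩
    rw [Nat.add_sub_cancel]
    calc k - 2 + q * (k - 1) ≤ (k - 1) + q * (k - 1) := by omega
      _ = (q + 1) * (k - 1) := by ring
      _ ≤ 12 * X * (k - 1) := Nat.mul_le_mul_right _ hX'
  have h2 : 12 * W + J * (k - 2 + (p - 1) * (k - 1)) ≤ 12 * (k * J * X) := by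
    calc 12 * W + J * (k - 2 + (p - 1) * (k - 1)) ≤ 12 * (J * X) + J * (12 * X * (k - 1)) :=
          Nat.add_le_add (Nat.mul_le_mul_left _ hW) (Nat.mul_le_mul_left _ h1)
      _ = 12 * ((k - 1 + 1) * J * X) := by ring
      _ = 12 * (k * J * X) := by rw [Nat.sub_add_cancel (by omega)]
  calc 12 * m * (12 * W + J * (k - 2 + (p - 1) * (k - 1))) / 12
      ≤ 12 * m * (12 * (k * J * X)) / 12 := Nat.div_le_div_right (Nat.mul_le_mul_left _ h2)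
    _ = 12 * m * k * J * X := by
        rw [show 12 * m * (12 * (k * J * X)) = 12 * m * k * J * X * 12 by ring]
        exact Nat.mul_div_cancel _ (by norm_num)

/-- **Theorem D, part (M)**: the congruences of the end game (`H95D.endgame`, hypothesis `hv`). -/
theorem congr_good {N k : ℕ} [NeZero N] (hk : 4 ≤ k) {a : ℕ → ℤ} (hF : Frm N k a) {r : ℕ}
    (d : Fin r → ℕ) (hd : ∀ s, d s ≠ 0) {L : ℕ} (hL : L ≠ 0) (hdL : ∀ s, d s ∣ L)
    (p : ℕ) [Fact p.Prime] (hp : 5 < p) (hpL : ¬ p ∣ L) (c : ℤ)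
    (hH : ∀ n, a (p * n) = a p * a n - (if p ∣ n then c * (p : ℤ) ^ (k - 1) * a (n / p) else 0))
    (e : ℤ) (hpa : a p = p * e) (J W X : ℕ) (hX : X ≤ p) (hX' : p ≤ 12 * X) (hW : W ≤ J * X)
    (x : (Fin r → ℕ) × ℕ → ℤ)
    (hx : ∀ n j l : ℕ, n + j * X ≤ CT N k L * J * X → gg (hs a d hd) J W x n j l = 0)
    (D : ℤ) (G : ℕ → ℕ → ℕ → ℤ) (m : ℕ)
    (hG : ∀ j l : ℕ, j * p ≤ m → l ≤ J →
      (D : ℚ) * gg (hs a d hd) J W x (m - j * p) j l = (G (m - j * p) j l : ℤ)) :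
    (p : ℤ) ∣ ∑ j ∈ range (m / p + 1), ∑ l ∈ range (J + 1), G (m - j * p) j l * e ^ l :=
  congr_of_van (PI_hs Fact.out hk hF.zero c hH ⟨e, hpa⟩ d hd) J W x e
    (FA_zero hk hF d hd hL hdL p hp hpL c hH e hpa J W X hX hX' hW x hx) D m G hG

end H94D
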