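import Mathlib

/-!
# MP_273810_co : the order of the ends of the chords, the two ends at the vertex made different (library H94D, helper94)
-/

namespace Pool.Agent.Lib.H94D.Poly

open Finset

/-- `c` and `e` are on the same side of the pair `a, b`. -/
def NIt (a b c e : ℝ) : Prop := (min a b < c ∧ c < max a b) ↔ (min a b < e ∧ e < max a b)

theorem nit_swap_left {a b c e : ℝ} (h : NIt a b c e) : NIt b a c e := by
  unfold NIt at *
  rwa [min_comm b a, max_comm b a]

theorem nit_swap_right {a b c e : ℝ} (h : NIt a b c e) : NIt a b e c := h.symm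

theorem nit_symm_aux {a b c e : ℝ} (hab : a < b) (hce : c < e) (h1 : a ≠ c) (h2 : a ≠ e) (h3 : b ≠ c)
    (h4 : b ≠ e) (h : NIt a b c e) : NIt c e a b := by
  unfold NIt at *
  rw [min_eq_left hab.le, max_eq_right hab.le] at h
  rw [min_eq_left hce.le, max_eq_right hce.le]
  constructor
  · rintro ⟨h5, h6⟩
    refine ⟨h5.trans hab, ?_⟩
    by_contra h7
    have h8 : e < b := lt_of_le_of_ne (not_lt.1 h7) (Ne.symm h4)
    have h9 := (h.2 ⟨h6, h8⟩).1
    linarith
  · rintro ⟨h5, h6⟩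
    refine ⟨?_, hab.trans h6⟩
    by_contra h7
    have h8 : a < c := lt_of_le_of_ne (not_lt.1 h7) h1
    have h9 := (h.1 ⟨h8, h5⟩).2
    linarith

theorem nit_symm {a b c e : ℝ} (hab : a ≠ b) (hce : c ≠ e) (h1 : a ≠ c) (h2 : a ≠ e) (h3 : b ≠ c)
    (h4 : b ≠ e) (h : NIt a b c e) : NIt c e a b := by
  rcases lt_or_gt_of_ne hab with k1 | k1 <;> rcases lt_or_gt_of_ne hce with k2 | k2
  · exact nit_symm_aux k1 k2 h1 h2 h3 h4 h
  · exact nit_swap_left (nit_symm_aux k1 k2 h2 h1 h4 h3 (nit_swap_right h))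
  · exact nit_swap_right (nit_symm_aux k1 k2 h3 h4 h1 h2 (nit_swap_left h))
  · exact nit_swap_left (nit_swap_right (nit_symm_aux k1 k2 h4 h3 h2 h1 (nit_swap_left (nit_swap_right h))))

/-- The two chords at the vertex. -/
theorem exists_sign (c δ p q : ℝ) (hδ : 0 < δ) (hp : δ < |p - c|) (hq : δ < |q - c|) (hpq : p ≠ q) :
    ∃ ε : ℝ, (ε = 1 ∨ ε = -1) ∧ NIt (c + ε * δ) p q (c - ε * δ) := by
  unfold NIt
  rcases lt_abs.1 hp with p1 | p1 <;> rcases lt_abs.1 hq with q1 | q1 <;>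
    rcases lt_or_gt_of_ne hpq with h1 | h1
  · refine ⟨1, Or.inl rfl, ?_⟩
    rw [min_eq_left (by linarith), max_eq_right (by linarith)]
    constructor <;> rintro ⟨h2, h3⟩ <;> constructor <;> linarith
  · refine ⟨-1, Or.inr rfl, ?_⟩
    rw [min_eq_left (by linarith), max_eq_right (by linarith)]
    constructor <;> rintro ⟨h2, h3⟩ <;> constructor <;> linarith
  · exfalso; linarith
  · refine ⟨1, Or.inl rfl, ?_⟩
    rw [min_eq_left (by linarith), max_eq_right (by linarith)]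
    constructor <;> rintro ⟨h2, h3⟩ <;> constructor <;> linarith
  · refine ⟨-1, Or.inr rfl, ?_⟩
    rw [min_eq_right (by linarith), max_eq_left (by linarith)]
    constructor <;> rintro ⟨h2, h3⟩ <;> constructor <;> linarith
  · exfalso; linarith
  · refine ⟨1, Or.inl rfl, ?_⟩
    rw [min_eq_right (by linarith), max_eq_left (by linarith)]
    constructor <;> rintro ⟨h2, h3⟩ <;> constructor <;> linarith
  · refine ⟨-1, Or.inr rfl, ?_⟩
    rw [min_eq_right (by linarith), max_eq_left (by linarith)]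
    constructor <;> rintro ⟨h2, h3⟩ <;> constructor <;> linarith

theorem exists_delta (K : ℕ) (c : ℝ) (s : ℕ → ℝ) (h : ∀ m, 1 ≤ m → m ≤ K → s m ≠ c) :
    ∃ δ : ℝ, 0 < δ ∧ ∀ m, 1 ≤ m → m ≤ K → δ < |s m - c| := by
  induction K with
  | zero => exact ⟨1, one_pos, fun m h1 h2 => absurd h1 (by omega)⟩
  | succ K ih =>
    obtain ⟨δ, h1, h2⟩ := ih fun m h1 h2 => h m h1 (by omega)
    have h3 : 0 < |s (K + 1) - c| := abs_pos.2 (sub_ne_zero.2 (h (K + 1) (by omega) le_rfl))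
    refine ⟨min δ (|s (K + 1) - c| / 2), lt_min h1 (by linarith), ?_⟩
    intro m h4 h5
    rcases Nat.lt_or_ge m (K + 1) with h6 | h6
    · exact (min_le_left _ _).trans_lt (h2 m h4 (by omega))
    · have h7 : m = K + 1 := by omega
      rw [h7]
      exact (min_le_right _ _).trans_lt (by linarith)

/-- The order part: positions `s m` of the bounces `1 ≤ m ≤ K` on the boundary, `s 0 = s (K+1) = n` the position of the
vertex. The two positions of the vertex are moved a little. -/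
theorem exists_order {D : Type*} (K n : ℕ) (hK : 1 ≤ K) (d : ℕ → D) (J : ℕ → ℕ) (s : ℕ → ℝ)
    (hs0 : s 0 = n) (hsK : s (K + 1) = n)
    (hJ : ∀ m, 1 ≤ m → m ≤ K → 1 ≤ J m ∧ J m ≤ n ∧ (J m : ℝ) < s m ∧ s m < J m + 1)
    (hself : ∀ m, 1 ≤ m → m < K → s m ≠ s (m + 1))
    (hdist : ∀ m m', m ≤ K → m' ≤ K → m ≠ m' → d m = d m' →
      s m ≠ s m' ∧ s (m + 1) ≠ s (m' + 1) ∧ ((m = 0 ∧ m' = K) ∨ s m ≠ s (m' + 1)))
    (hNI : ∀ m m', m ≤ K → 1 ≤ m' → m' < K → m ≠ m' → d m = d m' →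
      ((min (s m) (s (m + 1)) < s m' ∧ s m' < max (s m) (s (m + 1))) ↔
        (min (s m) (s (m + 1)) < s (m' + 1) ∧ s (m' + 1) < max (s m) (s (m + 1))))) :
    ∃ x : ℕ → ℝ,
      (∀ m m', 1 ≤ m → m ≤ K → 1 ≤ m' → m' ≤ K → J m < J m' → x m < x m') ∧
      (∀ m, 1 ≤ m → m ≤ K → (J m < n → x m < x 0 ∧ x m < x (K + 1)) ∧
        (J m = n → x 0 < x m ∧ x (K + 1) < x m)) ∧
      (∀ m ≤ K, x m ≠ x (m + 1)) ∧
      (∀ m ≤ K, ∀ m' ≤ K, m ≠ m' → d m = d m' →
        x m ≠ x m' ∧ x (m + 1) ≠ x (m' + 1) ∧ x m ≠ x (m' + 1)) ∧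
      (∀ m ≤ K, ∀ m' ≤ K, m ≠ m' → d m = d m' →
        ((min (x m) (x (m + 1)) < x m' ∧ x m' < max (x m) (x (m + 1))) ↔
          (min (x m) (x (m + 1)) < x (m' + 1) ∧ x (m' + 1) < max (x m) (x (m + 1))))) := by
  have hne : ∀ m, 1 ≤ m → m ≤ K → s m ≠ (n : ℝ) := by
    intro m h1 h2 h3
    obtain ⟨_, _, h4, h5⟩ := hJ m h1 h2
    rw [h3] at h4 h5
    have h6 : J m < n := by exact_mod_cast h4
    have h7 : n < J m + 1 := by exact_mod_cast h5
    omega
  obtain ⟨δ, hδ, hδ'⟩ := exists_delta K (n : ℝ) s hne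
  -- the sign
  obtain ⟨ε, hε, hNI0⟩ : ∃ ε : ℝ, (ε = 1 ∨ ε = -1) ∧
      (d 0 = d K → K ≠ 0 → NIt (n + ε * δ) (s 1) (s K) (n - ε * δ)) := by
    by_cases hd : d 0 = d K
    · have h1 := (hdist K 0 le_rfl (by omega) (by omega) hd.symm).2.2
      have h2 : s K ≠ s 1 := by
        rcases h1 with h1 | h1
        · omega
        · simpa using h1
      obtain ⟨ε, h3, h4⟩ := exists_sign (n : ℝ) δ (s 1) (s K) hδ (hδ' 1 le_rfl hK) (hδ' K hK le_rfl)
        (Ne.symm h2)
      exact ⟨ε, h3, fun _ _ => h4⟩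
    · exact ⟨1, Or.inl rfl, fun h => absurd h hd⟩
  have hεδ : ε * δ = δ ∨ ε * δ = -δ := by
    rcases hε with h | h
    · left; rw [h, one_mul]
    · right; rw [h]; ring
  set x : ℕ → ℝ := fun m => if m = 0 then n + ε * δ else if m = K + 1 then n - ε * δ else s m with hx
  have x0 : x 0 = n + ε * δ := by simp [hx]
  have xK : x (K + 1) = n - ε * δ := by simp [hx]
  have xm : ∀ m, 1 ≤ m → m ≤ K → x m = s m := by
    intro m h1 h2
    simp only [hx]
    rw [if_neg (by omega), if_neg (by omega)]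
  -- comparisons
  have hcmp0 : ∀ m, 1 ≤ m → m ≤ K → ∀ y : ℝ, (y = n + ε * δ ∨ y = n - ε * δ) →
      (y < s m ↔ (n : ℝ) < s m) ∧ (s m < y ↔ s m < (n : ℝ)) := by
    intro m h1 h2 y hy
    have hy' : y = n + δ ∨ y = n - δ := by
      rcases hy with h3 | h3 <;> rcases hεδ with h4 | h4 <;> rw [h4] at h3
      · exact Or.inl h3
      · right; rw [h3]; ring
      · exact Or.inr h3
      · left; rw [h3]; ring
    have h3 := hδ' m h1 h2
    rcases lt_abs.1 h3 with h4 | h4
    · rcases hy' with h5 | h5 <;> rw [h5] <;> constructor <;> constructor <;> intro h6 <;> linarith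
    · rcases hy' with h5 | h5 <;> rw [h5] <;> constructor <;> constructor <;> intro h6 <;> linarith
  have hcmp : ∀ i m, i ≤ K + 1 → 1 ≤ m → m ≤ K → (x i < x m ↔ s i < s m) ∧ (x m < x i ↔ s m < s i) := by
    intro i m hi h1 h2
    rw [xm m h1 h2]
    rcases Nat.eq_zero_or_pos i with h3 | h3
    · rw [h3, x0, hs0]
      exact hcmp0 m h1 h2 _ (Or.inl rfl)
    · rcases Nat.lt_or_ge i (K + 1) with h4 | h4
      · rw [xm i h3 (by omega)]
        exact ⟨Iff.rfl, Iff.rfl⟩
      · have h5 : i = K + 1 := by omega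
        rw [h5, xK, hsK]
        exact hcmp0 m h1 h2 _ (Or.inr rfl)
  have hcne : ∀ i m, i ≤ K + 1 → 1 ≤ m → m ≤ K → s i ≠ s m → x i ≠ x m := by
    intro i m hi h1 h2 h3 h4
    obtain ⟨h5, h6⟩ := hcmp i m hi h1 h2
    rcases lt_or_gt_of_ne h3 with h7 | h7
    · exact absurd (h5.2 h7) (by rw [h4]; exact lt_irrefl _)
    · exact absurd (h6.2 h7) (by rw [h4]; exact lt_irrefl _)
  have hx0K : x 0 ≠ x (K + 1) := by
    rw [x0, xK]
    rcases hεδ with h | h <;> rw [h] <;> intro h1 <;> linarith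
  -- the four conditions on distinctness
  have P3 : ∀ m ≤ K, x m ≠ x (m + 1) := by
    intro m hm
    rcases Nat.eq_zero_or_pos m with h3 | h3
    · rw [h3]
      exact hcne 0 1 (by omega) le_rfl hK (by rw [hs0]; exact (hne 1 le_rfl hK).symm)
    · rcases Nat.lt_or_ge m K with h4 | h4
      · exact hcne m (m + 1) (by omega) (by omega) h4 (hself m h3 h4)
      · have h5 : m = K := by omega
        rw [h5]
        exact (hcne (K + 1) K le_rfl hK le_rfl (by rw [hsK]; exact (hne K hK le_rfl).symm)).symm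
  have P4 : ∀ m ≤ K, ∀ m' ≤ K, m ≠ m' → d m = d m' →
      x m ≠ x m' ∧ x (m + 1) ≠ x (m' + 1) ∧ x m ≠ x (m' + 1) := by
    intro m hm m' hm' hmm hd
    obtain ⟨h1, h2, h3⟩ := hdist m m' hm hm' hmm hd
    refine ⟨?_, ?_, ?_⟩
    · rcases Nat.eq_zero_or_pos m with h4 | h4
      · exact hcne m m' (by omega) (by omega) hm' h1
      · exact (hcne m' m (by omega) h4 hm (Ne.symm h1)).symm
    · rcases Nat.lt_or_ge m K with h4 | h4
      · exact (hcne (m' + 1) (m + 1) (by omega) (by omega) h4 (Ne.symm h2)).symm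
      · exact hcne (m + 1) (m' + 1) (by omega) (by omega) (by omega) h2
    · rcases h3 with ⟨h3, h4⟩ | h3
      · rw [h3, h4]
        exact hx0K
      · rcases Nat.eq_zero_or_pos m with h4 | h4
        · rcases Nat.lt_or_ge m' K with h5 | h5
          · exact hcne m (m' + 1) (by omega) (by omega) h5 h3
          · have h6 : m' = K := by omega
            rw [h4, h6]
            exact hx0K
        · exact (hcne (m' + 1) m (by omega) h4 hm (Ne.symm h3)).symm
  -- non-interleaving against an inner chord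
  have Q1 : ∀ m m', m ≤ K → 1 ≤ m' → m' < K → m ≠ m' → d m = d m' →
      NIt (x m) (x (m + 1)) (x m') (x (m' + 1)) := by
    intro m m' hm h1 h2 h3 h4
    have h5 := hNI m m' hm h1 h2 h3 h4
    unfold NIt
    simp only [min_lt_iff, lt_max_iff] at h5 ⊢
    rw [(hcmp m m' (by omega) h1 h2.le).1, (hcmp (m + 1) m' (by omega) h1 h2.le).1,
      (hcmp m m' (by omega) h1 h2.le).2, (hcmp (m + 1) m' (by omega) h1 h2.le).2,
      (hcmp m (m' + 1) (by omega) (by omega) h2).1, (hcmp (m + 1) (m' + 1) (by omega) (by omega) h2).1,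
      (hcmp m (m' + 1) (by omega) (by omega) h2).2, (hcmp (m + 1) (m' + 1) (by omega) (by omega) h2).2]
    exact h5
  have Q2 : d 0 = d K → NIt (x 0) (x (0 + 1)) (x K) (x (K + 1)) := by
    intro hd
    have h1 := hNI0 hd (by omega)
    rw [x0, xK, zero_add, xm 1 le_rfl hK, xm K hK le_rfl]
    exact h1
  have hsymm : ∀ m ≤ K, ∀ m' ≤ K, m ≠ m' → d m = d m' →
      NIt (x m') (x (m' + 1)) (x m) (x (m + 1)) → NIt (x m) (x (m + 1)) (x m') (x (m' + 1)) := by
    intro m hm m' hm' hmm hd hN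
    obtain ⟨h1, h2, h3⟩ := P4 m' hm' m hm (Ne.symm hmm) hd.symm
    obtain ⟨h4, h5, h6⟩ := P4 m hm m' hm' hmm hd
    exact nit_symm (P3 m' hm') (P3 m hm) h1 h3 (Ne.symm h6) h2 hN
  refine ⟨x, ?_, ?_, P3, P4, ?_⟩
  · intro m m' h1 h2 h3 h4 h5
    rw [(hcmp m m' (by omega) h3 h4).1]
    have h6 := (hJ m h1 h2).2.2.2
    have h7 := (hJ m' h3 h4).2.2.1
    have h8 : (J m : ℝ) + 1 ≤ J m' := by exact_mod_cast h5
    linarith
  · intro m h1 h2
    obtain ⟨_, _, h6, h7⟩ := hJ m h1 h2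
    constructor
    · intro h3
      have h8 : (J m : ℝ) + 1 ≤ n := by exact_mod_cast h3
      rw [(hcmp 0 m (by omega) h1 h2).2, (hcmp (K + 1) m (by omega) h1 h2).2, hs0, hsK]
      exact ⟨by linarith, by linarith⟩
    · intro h3
      rw [(hcmp 0 m (by omega) h1 h2).1, (hcmp (K + 1) m (by omega) h1 h2).1, hs0, hsK, ← h3]
      exact ⟨h6, h6⟩
  · intro m hm m' hm' hmm hd
    show NIt (x m) (x (m + 1)) (x m') (x (m' + 1))
    by_cases h1 : 1 ≤ m' ∧ m' < K
    · exact Q1 m m' hm h1.1 h1.2 hmm hd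
    · by_cases h2 : 1 ≤ m ∧ m < K
      · exact hsymm m hm m' hm' hmm hd (Q1 m' m hm' h2.1 h2.2 (Ne.symm hmm) hd.symm)
      · rcases Nat.eq_zero_or_pos m with h3 | h3
        · have h4 : m' = K := by omega
          rw [h3, h4]
          exact Q2 (by rw [← h3, ← h4]; exact hd)
        · have h4 : m = K := by omega
          have h5 : m' = 0 := by omega
          refine hsymm m hm m' hm' hmm hd ?_
          rw [h4, h5]
          exact Q2 (by rw [← h4, ← h5]; exact hd.symm)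

end Pool.Agent.Lib.H94D.Poly
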