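import Pool.Agent.Lib.H52W.Jordan

/-!
# MP_273810_co : the outside of a simple closed polygonal curve is connected (library H94D, helper94)

The proofs follow those of helper52 for the inside (Pool.Agent.Lib.H52W.Jordan).
-/

namespace Pool.Agent.Lib.H94D.Poly

open Complex Topology Filter Set
open Pool.Agent.H52W

/-- `x` is outside. -/
def Outs {n : ℕ} [NeZero n] (v : ZMod n → ℂ) (x : ℂ) : Prop := x ∉ curve v ∧ ¬ Inside v x

theorem isOpen_outs {n : ℕ} [NeZero n] (v : ZMod n → ℂ) : IsOpen {x | Outs v x} := isOpen_outside v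

theorem inside_of_not_outs {n : ℕ} [NeZero n] {v : ZMod n → ℂ} {x : ℂ} (h1 : x ∉ curve v)
    (h2 : x ∉ OutS v) : Inside v x := by
  by_contra h3
  exact h2 ⟨h1, h3⟩

theorem outs_iff_of_isPreconnected {n : ℕ} [NeZero n] (v : ZMod n → ℂ) {s : Set ℂ}
    (hs : IsPreconnected s) (hd : ∀ x ∈ s, x ∉ curve v) {x y : ℂ} (hx : x ∈ s) (hy : y ∈ s) :
    Outs v x ↔ Outs v y := by
  have h1 := inside_iff_of_isPreconnected v hs hd hx hy
  constructor
  · rintro ⟨_, h2⟩
    exact ⟨hd y hy, fun h3 => h2 (h1.2 h3)⟩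
  · rintro ⟨_, h2⟩
    exact ⟨hd x hx, fun h3 => h2 (h1.1 h3)⟩

theorem outs_flip_local {n : ℕ} [NeZero n] (v : ZMod n → ℂ) (i : ZMod n) (w d : ℂ)
    (hw : w ∈ openSegment ℝ (v i) (v (i + 1)))
    (hother : ∀ j, j ≠ i → w ∉ segment ℝ (v j) (v (j + 1)))
    (hd : cdet d (v (i + 1) - v i) ≠ 0) :
    ∀ᶠ t : ℝ in 𝓝[>] 0, (w + (t : ℂ) * d) ∉ curve v ∧ (w - (t : ℂ) * d) ∉ curve v ∧
      (Outs v (w - (t : ℂ) * d) ↔ ¬ Outs v (w + (t : ℂ) * d)) := by
  filter_upwards [inside_flip_local v i w d hw hother hd] with t ht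
  obtain ⟨h1, h2, h3⟩ := ht
  refine ⟨h1, h2, ?_⟩
  constructor
  · rintro ⟨_, h4⟩ ⟨_, h5⟩
    exact h4 (h3.2 h5)
  · intro h4
    refine ⟨h2, fun h5 => h4 ⟨h1, h3.1 h5⟩⟩

/-- Near a point in the relative interior of a side the outside is a half disc. -/
theorem side_nbhd_out {n : ℕ} [NeZero n] {v : ZMod n → ℂ} (h : SimpleV v) (i : ZMod n) {w : ℂ}
    (hw : w ∈ openSegment ℝ (v i) (v (i + 1))) :
    ∃ r > 0, IsPreconnected (Metric.ball w r ∩ OutS v) := by
  have hne := h.ne_succ i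
  have hother := h.open_other hw
  have h2 : ∀ᶠ y in 𝓝 w, ∀ j, j ≠ i → y ∉ segment ℝ (v j) (v (j + 1)) := by
    rw [eventually_all]
    intro j
    by_cases hj : j = i
    · exact Eventually.of_forall fun y hj' => absurd hj hj'
    · have hcl : IsClosed (segment ℝ (v j) (v (j + 1))) := by
        rw [segment_eq_image]
        exact (isCompact_Icc.image (by fun_prop)).isClosed
      filter_upwards [hcl.isOpen_compl.mem_nhds (hother j hj)] with y hy _
      exact hy
  obtain ⟨r, hr, hball⟩ := Metric.eventually_nhds_iff_ball.1 h2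
  set d := v (i + 1) - v i with hd
  have hd0 : d ≠ 0 := sub_ne_zero.2 (Ne.symm hne)
  have hoff : ∀ σ : ℝ, ∀ y ∈ Metric.ball w r ∩ {y | 0 < σ * cdet d (y - w)}, y ∉ curve v := by
    rintro σ y ⟨hy, hpos⟩
    rw [not_mem_curve_iff]
    intro j hmem
    by_cases hj : j = i
    · subst hj
      have h3 := cdet_eq_zero_of_mem_segment _ _ _ hmem
      have h4 := cdet_eq_zero_of_mem_segment _ _ _ (openSegment_subset_segment _ _ _ hw)
      have h5 : cdet d (y - w) = 0 := by
        rw [hd]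
        simp only [cdet, Complex.sub_re, Complex.sub_im] at h3 h4 ⊢
        linear_combination h3 - h4
      have hpos' : 0 < σ * cdet d (y - w) := hpos
      rw [h5, mul_zero] at hpos'
      exact lt_irrefl _ hpos'
    · exact hball y hy j hj hmem
  have hconv := fun σ : ℝ => (bridge_convex_half w d r σ).isPreconnected
  have hwball : w ∈ Metric.ball w r := Metric.mem_ball_self hr
  have hloc := outs_flip_local v i w (I * d) hw hother (h.flip_dir i)
  have hb1 := (tendsto_add_dir w (I * d) 1).eventually (Metric.isOpen_ball.mem_nhds hwball)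
  have hb2 := (tendsto_add_dir w (I * d) (-1)).eventually (Metric.isOpen_ball.mem_nhds hwball)
  have hpos : ∀ᶠ t : ℝ in 𝓝[>] 0, 0 < t := self_mem_nhdsWithin
  obtain ⟨t, ⟨⟨⟨_, _, hflip⟩, ht1⟩, ht2⟩, ht0⟩ := (((hloc.and hb1).and hb2).and hpos).exists
  have hn := Complex.normSq_pos.2 hd0
  have e1 : w + ((1 * t : ℝ) : ℂ) * (I * d) = w + (t : ℂ) * (I * d) := by push_cast; ring
  have e2 : w + ((-1 * t : ℝ) : ℂ) * (I * d) = w - (t : ℂ) * (I * d) := by push_cast; ring
  rw [e1] at ht1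
  rw [e2] at ht2
  have hp1 : w + (t : ℂ) * (I * d) ∈ Metric.ball w r ∩ {y | 0 < (1 : ℝ) * cdet d (y - w)} := by
    refine ⟨ht1, ?_⟩
    show 0 < (1 : ℝ) * cdet d (w + (t : ℂ) * (I * d) - w)
    rw [bridge_side_points w d hd0, one_mul]
    positivity
  have hp2 : w - (t : ℂ) * (I * d) ∈ Metric.ball w r ∩ {y | 0 < (-1 : ℝ) * cdet d (y - w)} := by
    refine ⟨ht2, ?_⟩
    show 0 < (-1 : ℝ) * cdet d (w - (t : ℂ) * (I * d) - w)
    have e : w - (t : ℂ) * (I * d) = w + ((-t : ℝ) : ℂ) * (I * d) := by push_cast; ring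
    rw [e, bridge_side_points w d hd0]
    nlinarith
  set x1 := w + (t : ℂ) * (I * d) with hx1
  set x2 := w - (t : ℂ) * (I * d) with hx2
  -- the half `σ` is inside, the other one is not
  have key : ∀ σ : ℝ, σ ≠ 0 →
      (∀ y ∈ Metric.ball w r ∩ {y | 0 < σ * cdet d (y - w)}, Outs v y) →
      (∀ y ∈ Metric.ball w r ∩ {y | 0 < (-σ) * cdet d (y - w)}, ¬ Outs v y) →
      IsPreconnected (Metric.ball w r ∩ OutS v) := by
    intro σ hσ h5 h6
    have e : Metric.ball w r ∩ OutS v = Metric.ball w r ∩ {y | 0 < σ * cdet d (y - w)} := by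
      ext y
      constructor
      · rintro ⟨hy, hyI⟩
        refine ⟨hy, ?_⟩
        show 0 < σ * cdet d (y - w)
        by_contra hcon
        rcases (not_lt.1 hcon).lt_or_eq with hlt | heq
        · exact h6 y ⟨hy, (by show 0 < (-σ) * cdet d (y - w); linarith)⟩ hyI
        · have hz : cdet d (y - w) = 0 := (mul_eq_zero.1 heq).resolve_left hσ
          have hcl := bridge_mem_closure_half w d hd0 r (-σ) (neg_ne_zero.2 hσ) y hy hz
          obtain ⟨z, hz1, hz2⟩ := mem_closure_iff.1 hcl (OutS v) (isOpen_outs v) hyI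
          exact h6 z hz2 hz1
      · rintro ⟨hy, hy2⟩
        exact ⟨hy, h5 y ⟨hy, hy2⟩⟩
    rw [e]
    exact hconv σ
  refine ⟨r, hr, ?_⟩
  by_cases hI : Outs v x1
  · refine key 1 one_ne_zero ?_ ?_
    · intro y hy
      exact (outs_iff_of_isPreconnected v (hconv 1) (hoff 1) hp1 hy).1 hI
    · intro y hy hyI
      have h7 := (outs_iff_of_isPreconnected v (hconv (-1)) (hoff (-1)) hp2 hy).2 hyI
      exact (hflip.1 h7) hI
  · have hI2 : Outs v x2 := hflip.2 hI
    refine key (-1) (by norm_num) ?_ ?_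
    · intro y hy
      exact (outs_iff_of_isPreconnected v (hconv (-1)) (hoff (-1)) hp2 hy).1 hI2
    · intro y hy hyI
      have hy' : y ∈ Metric.ball w r ∩ {y | 0 < (1 : ℝ) * cdet d (y - w)} := by
        refine ⟨hy.1, ?_⟩
        have := hy.2
        simpa using this
      exact hI ((outs_iff_of_isPreconnected v (hconv 1) (hoff 1) hp1 hy').2 hyI)
/-- Near a vertex the outside is a sector. -/
theorem vertex_nbhd_out {n : ℕ} [NeZero n] {v : ZMod n → ℂ} (h : SimpleV v) (i : ZMod n) :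
    ∃ r > 0, IsPreconnected (Metric.ball (v i) r ∩ OutS v) := by
  have ha : v (i - 1) - v i ≠ 0 := by
    have := h.ne_succ (i - 1)
    rw [sub_add_cancel] at this
    exact sub_ne_zero.2 this
  have hb : v (i + 1) - v i ≠ 0 := sub_ne_zero.2 (Ne.symm (h.ne_succ i))
  obtain ⟨σ, u, hΔ, hau, hbu⟩ := exists_sector_dir (v (i - 1) - v i) (v (i + 1) - v i) ha (h.no_overlap i)
  set p := v i with hp
  set a := v (i - 1) - p with hadef
  set b := v (i + 1) - p with hbdef
  -- a ball which meets only the two sides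
  have h2 : ∀ᶠ y in 𝓝 p, ∀ j, j ≠ i → j ≠ i - 1 → y ∉ segment ℝ (v j) (v (j + 1)) := by
    rw [eventually_all]
    intro j
    by_cases hj : j = i
    · exact Eventually.of_forall fun y hj' => absurd hj hj'
    · by_cases hj1 : j = i - 1
      · exact Eventually.of_forall fun y _ hj' => absurd hj1 hj'
      · have hcl : IsClosed (segment ℝ (v j) (v (j + 1))) := by
          rw [segment_eq_image]
          exact (isCompact_Icc.image (by fun_prop)).isClosed
        filter_upwards [hcl.isOpen_compl.mem_nhds (h.vertex_other i j hj hj1)] with y hy _ _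
        exact hy
  obtain ⟨r, hr, hball⟩ := Metric.eventually_nhds_iff_ball.1 h2
  refine ⟨r, hr, ?_⟩
  set S1 : Set ℂ := Metric.ball p r ∩ ({y | 0 < σ * cdet a (y - p)} ∩ {y | 0 < (-σ) * cdet b (y - p)}) with hS1
  set S2a : Set ℂ := Metric.ball p r ∩ {y | 0 < (-σ) * cdet a (y - p)} with hS2a
  set S2b : Set ℂ := Metric.ball p r ∩ {y | 0 < σ * cdet b (y - p)} with hS2b
  have c1 : Convex ℝ S1 := (convex_ball p r).inter ((half_convex p a σ).inter (half_convex p b (-σ)))
  have c2a : Convex ℝ S2a := (convex_ball p r).inter (half_convex p a (-σ))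
  have c2b : Convex ℝ S2b := (convex_ball p r).inter (half_convex p b σ)
  have hpball : p ∈ Metric.ball p r := Metric.mem_ball_self hr
  have hpos : ∀ᶠ t : ℝ in 𝓝[>] 0, 0 < t := self_mem_nhdsWithin
  -- points `y ± t u`
  have hstep : ∀ y ∈ Metric.ball p r, 0 ≤ σ * cdet a (y - p) → σ * cdet b (y - p) ≤ 0 →
      (∀ᶠ t : ℝ in 𝓝[>] 0, y + ((1 * t : ℝ) : ℂ) * u ∈ S1) := by
    intro y hy h3 h4
    filter_upwards [(tendsto_add_dir y u 1).eventually (Metric.isOpen_ball.mem_nhds hy), hpos] with t h5 h6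
    refine ⟨h5, ?_, ?_⟩
    · show 0 < σ * cdet a (y + ((1 * t : ℝ) : ℂ) * u - p)
      have e : y + ((1 * t : ℝ) : ℂ) * u - p = (y - p) + ((t : ℝ) : ℂ) * u := by push_cast; ring
      rw [e, cdet_add_smul]
      nlinarith [mul_pos h6 hau]
    · show 0 < (-σ) * cdet b (y + ((1 * t : ℝ) : ℂ) * u - p)
      have e : y + ((1 * t : ℝ) : ℂ) * u - p = (y - p) + ((t : ℝ) : ℂ) * u := by push_cast; ring
      rw [e, cdet_add_smul]
      nlinarith [mul_pos h6 (neg_pos.2 hbu)]
  have hstepa : ∀ y ∈ Metric.ball p r, σ * cdet a (y - p) ≤ 0 →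
      (∀ᶠ t : ℝ in 𝓝[>] 0, y + ((-1 * t : ℝ) : ℂ) * u ∈ S2a) := by
    intro y hy h3
    filter_upwards [(tendsto_add_dir y u (-1)).eventually (Metric.isOpen_ball.mem_nhds hy), hpos] with t h5 h6
    refine ⟨h5, ?_⟩
    show 0 < (-σ) * cdet a (y + ((-1 * t : ℝ) : ℂ) * u - p)
    have e : y + ((-1 * t : ℝ) : ℂ) * u - p = (y - p) + ((-t : ℝ) : ℂ) * u := by push_cast; ring
    rw [e, cdet_add_smul]
    nlinarith [mul_pos h6 hau]
  have hstepb : ∀ y ∈ Metric.ball p r, 0 ≤ σ * cdet b (y - p) →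
      (∀ᶠ t : ℝ in 𝓝[>] 0, y + ((-1 * t : ℝ) : ℂ) * u ∈ S2b) := by
    intro y hy h3
    filter_upwards [(tendsto_add_dir y u (-1)).eventually (Metric.isOpen_ball.mem_nhds hy), hpos] with t h5 h6
    refine ⟨h5, ?_⟩
    show 0 < σ * cdet b (y + ((-1 * t : ℝ) : ℂ) * u - p)
    have e : y + ((-1 * t : ℝ) : ℂ) * u - p = (y - p) + ((-t : ℝ) : ℂ) * u := by push_cast; ring
    rw [e, cdet_add_smul]
    nlinarith [mul_pos h6 (neg_pos.2 hbu)]
  have hpp : ∀ c : ℂ, cdet c (p - p) = 0 := by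
    intro c
    rw [sub_self]
    simp [cdet]
  -- the second sector is connected
  have hmeet : (S2a ∩ S2b).Nonempty := by
    obtain ⟨t, ht1, ht2⟩ := ((hstepa p hpball (by rw [hpp]; simp)).and
      (hstepb p hpball (by rw [hpp]; simp))).exists
    exact ⟨_, ht1, ht2⟩
  obtain ⟨z, hz1, hz2⟩ := hmeet
  have c2 : IsPreconnected (S2a ∪ S2b) := IsPreconnected.union z hz1 hz2 c2a.isPreconnected c2b.isPreconnected
  -- both sectors avoid the curve
  have hray : ∀ y ∈ Metric.ball p r, y ∈ curve v → 0 ≤ σ * cdet a (y - p) ∧ σ * cdet b (y - p) ≤ 0 ∧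
      (cdet a (y - p) = 0 ∨ cdet b (y - p) = 0) := by
    intro y hy hyc
    rw [curve, mem_iUnion] at hyc
    obtain ⟨j, hj⟩ := hyc
    by_cases h5 : j = i
    · rw [h5] at hj
      obtain ⟨s, hs0, hs1, rfl⟩ := mem_segment_param hj
      have e : p + (s : ℂ) * (v (i + 1) - p) - p = (s : ℂ) * b := by rw [hbdef]; ring
      rw [← hp, e, cdet_smul, cdet_smul, cdet_self]
      refine ⟨?_, by simp, Or.inr (by simp)⟩
      nlinarith
    · by_cases h6 : j = i - 1
      · rw [h6, sub_add_cancel, segment_symm] at hj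
        obtain ⟨s, hs0, hs1, rfl⟩ := mem_segment_param hj
        have e : p + (s : ℂ) * (v (i - 1) - p) - p = (s : ℂ) * a := by rw [hadef]; ring
        rw [← hp, e, cdet_smul, cdet_smul, cdet_self]
        refine ⟨by simp, ?_, Or.inl (by simp)⟩
        have e2 : cdet b a = - cdet a b := by simp only [cdet]; ring
        rw [e2]
        nlinarith
      · exact absurd hj (hball y hy j h5 h6)
  have o1 : ∀ y ∈ S1, y ∉ curve v := by
    rintro y ⟨hy, h5, h6⟩ hyc
    obtain ⟨_, _, h7⟩ := hray y hy hyc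
    have h5' : 0 < σ * cdet a (y - p) := h5
    have h6' : 0 < (-σ) * cdet b (y - p) := h6
    rcases h7 with h7 | h7
    · rw [h7, mul_zero] at h5'; exact lt_irrefl _ h5'
    · rw [h7, mul_zero] at h6'; exact lt_irrefl _ h6'
  have o2 : ∀ y ∈ S2a ∪ S2b, y ∉ curve v := by
    rintro y (⟨hy, h5⟩ | ⟨hy, h5⟩) hyc
    · obtain ⟨h7, _, _⟩ := hray y hy hyc
      have h5' : 0 < (-σ) * cdet a (y - p) := h5
      linarith
    · obtain ⟨_, h7, _⟩ := hray y hy hyc
      have h5' : 0 < σ * cdet b (y - p) := h5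
      linarith
  -- a flip at a point of the side `i`
  obtain ⟨w, hw, hwball, hwa⟩ : ∃ w ∈ openSegment ℝ (v i) (v (i + 1)), w ∈ Metric.ball p r ∧
      ∃ s : ℝ, 0 < s ∧ w - p = (s : ℂ) * b := by
    have h5 := (tendsto_add_dir p b 1).eventually (Metric.isOpen_ball.mem_nhds hpball)
    have h6 : ∀ᶠ t : ℝ in 𝓝[>] 0, t < 1 :=
      (eventually_lt_nhds (by norm_num : (0 : ℝ) < 1)).filter_mono nhdsWithin_le_nhds
    obtain ⟨t, ⟨ht1, ht2⟩, ht3⟩ := ((h5.and h6).and hpos).exists
    have e : p + ((1 * t : ℝ) : ℂ) * b = p + (t : ℂ) * b := by push_cast; ring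
    rw [e] at ht1
    refine ⟨p + (t : ℂ) * b, ?_, ht1, t, ht3, by ring⟩
    have := param_mem_openSegment (v i) (v (i + 1)) t ht3 ht2
    rwa [← hp, ← hbdef] at this
  obtain ⟨s, hs, hws⟩ := hwa
  have hubne : cdet u (v (i + 1) - v i) ≠ 0 := by
    have e : cdet u (v (i + 1) - v i) = - cdet b u := by
      rw [← hp, ← hbdef]; simp only [cdet]; ring
    rw [e]
    intro h5
    have h6 : cdet b u = 0 := by linarith
    rw [h6, mul_zero] at hbu
    exact lt_irrefl _ hbu
  have hloc := outs_flip_local v i w u hw (h.open_other hw) hubne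
  have g1 := hstep w hwball (by rw [hws, cdet_smul]; nlinarith) (by rw [hws, cdet_smul, cdet_self]; simp)
  have g2 := hstepb w hwball (by rw [hws, cdet_smul, cdet_self]; simp)
  obtain ⟨t, ⟨⟨_, _, hflip⟩, ht1⟩, ht2⟩ := ((hloc.and g1).and g2).exists
  have e1 : w + ((1 * t : ℝ) : ℂ) * u = w + (t : ℂ) * u := by push_cast; ring
  have e2 : w + ((-1 * t : ℝ) : ℂ) * u = w - (t : ℂ) * u := by push_cast; ring
  rw [e1] at ht1
  rw [e2] at ht2
  have ht2' : w - (t : ℂ) * u ∈ S2a ∪ S2b := Or.inr ht2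
  set x1 := w + (t : ℂ) * u with hx1
  set x2 := w - (t : ℂ) * u with hx2
  -- trichotomy in the ball
  have htri : ∀ y ∈ Metric.ball p r, y ∈ S1 ∨ y ∈ S2a ∪ S2b ∨
      (0 ≤ σ * cdet a (y - p) ∧ σ * cdet b (y - p) ≤ 0 ∧ (σ * cdet a (y - p) = 0 ∨ σ * cdet b (y - p) = 0)) := by
    intro y hy
    by_cases h5 : σ * cdet a (y - p) < 0
    · right; left; left
      exact ⟨hy, (by show 0 < (-σ) * cdet a (y - p); linarith)⟩
    by_cases h6 : 0 < σ * cdet b (y - p)
    · right; left; right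
      exact ⟨hy, h6⟩
    push Not at h5 h6
    rcases h5.lt_or_eq with h7 | h7
    · rcases h6.lt_or_eq with h8 | h8
      · left
        exact ⟨hy, h7, (by show 0 < (-σ) * cdet b (y - p); linarith)⟩
      · right; right
        exact ⟨h5, h6, Or.inr h8⟩
    · right; right
      exact ⟨h5, h6, Or.inl h7.symm⟩
  have hopen := isOpen_outs v
  -- boundary rays: points inside would have points of both sectors inside nearby
  have hboth : ∀ y ∈ Metric.ball p r, Outs v y → 0 ≤ σ * cdet a (y - p) → σ * cdet b (y - p) ≤ 0 →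
      (σ * cdet a (y - p) = 0 ∨ σ * cdet b (y - p) = 0) →
      (∃ z ∈ S1, Outs v z) ∧ (∃ z ∈ S2a ∪ S2b, Outs v z) := by
    intro y hy hyI h5 h6 h7
    have k1 := (tendsto_add_dir y u 1).eventually (hopen.mem_nhds hyI)
    have k2 := (tendsto_add_dir y u (-1)).eventually (hopen.mem_nhds hyI)
    constructor
    · obtain ⟨t, ht1, ht2⟩ := (k1.and (hstep y hy h5 h6)).exists
      exact ⟨_, ht2, ht1⟩
    · rcases h7 with h7 | h7
      · obtain ⟨t, ht1, ht2⟩ := (k2.and (hstepa y hy h7.le)).exists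
        exact ⟨_, Or.inl ht2, ht1⟩
      · obtain ⟨t, ht1, ht2⟩ := (k2.and (hstepb y hy h7.ge)).exists
        exact ⟨_, Or.inr ht2, ht1⟩
  by_cases hI : Outs v x1
  · -- the first sector is inside
    have hall : ∀ y ∈ S1, Outs v y := fun y hy =>
      (outs_iff_of_isPreconnected v c1.isPreconnected o1 ht1 hy).1 hI
    have hnone : ∀ y ∈ S2a ∪ S2b, ¬ Outs v y := fun y hy hyI =>
      (hflip.1 ((outs_iff_of_isPreconnected v c2 o2 ht2' hy).2 hyI)) hI
    have e : Metric.ball p r ∩ OutS v = S1 := by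
      ext y
      constructor
      · rintro ⟨hy, hyI⟩
        rcases htri y hy with h5 | h5 | ⟨h5, h6, h7⟩
        · exact h5
        · exact absurd hyI (hnone y h5)
        · obtain ⟨_, z, hz, hzI⟩ := hboth y hy hyI h5 h6 h7
          exact absurd hzI (hnone z hz)
      · intro hy
        exact ⟨hy.1, hall y hy⟩
    rw [e]
    exact c1.isPreconnected
  · have hI2 : Outs v x2 := hflip.2 hI
    have hall : ∀ y ∈ S2a ∪ S2b, Outs v y := fun y hy =>
      (outs_iff_of_isPreconnected v c2 o2 ht2' hy).1 hI2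
    have hnone : ∀ y ∈ S1, ¬ Outs v y := fun y hy hyI =>
      hI ((outs_iff_of_isPreconnected v c1.isPreconnected o1 ht1 hy).2 hyI)
    have e : Metric.ball p r ∩ OutS v = S2a ∪ S2b := by
      ext y
      constructor
      · rintro ⟨hy, hyI⟩
        rcases htri y hy with h5 | h5 | ⟨h5, h6, h7⟩
        · exact absurd hyI (hnone y h5)
        · exact h5
        · obtain ⟨⟨z, hz, hzI⟩, _⟩ := hboth y hy hyI h5 h6 h7
          exact absurd hzI (hnone z hz)
      · intro hy
        refine ⟨?_, hall y hy⟩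
        rcases hy with hy | hy
        · exact hy.1
        · exact hy.1
    rw [e]
    exact c2
theorem curve_nbhd_out {n : ℕ} [NeZero n] {v : ZMod n → ℂ} (h : SimpleV v) {w : ℂ}
    (hw : w ∈ curve v) : ∃ r > 0, IsPreconnected (Metric.ball w r ∩ OutS v) := by
  rw [curve, mem_iUnion] at hw
  obtain ⟨i, hi⟩ := hw
  rw [← insert_endpoints_openSegment] at hi
  rcases hi with rfl | rfl | hi
  · exact vertex_nbhd_out h i
  · exact vertex_nbhd_out h (i + 1)
  · exact side_nbhd_out h i hi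

theorem isPreconnected_outS {n : ℕ} [NeZero n] {v : ZMod n → ℂ} (h : SimpleV v) :
    IsPreconnected (OutS v) := by
  have hopen : IsOpen (OutS v) := isOpen_outs v
  have key : ∀ U V : Set ℂ, IsOpen U → IsOpen V → OutS v ⊆ U ∪ V → (OutS v ∩ U).Nonempty →
      ¬ (OutS v ∩ (U ∩ V)).Nonempty → (curve v ∩ closure (OutS v ∩ U)).Nonempty := by
    intro U V hU hV hcov hne hdis
    have hU' : IsOpen (OutS v ∩ U) := hopen.inter hU
    have hV' : IsOpen (OutS v ∩ V) := hopen.inter hV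
    have hfr : (frontier (OutS v ∩ U)).Nonempty := by
      rw [nonempty_iff_ne_empty]
      intro h0
      have h1 : IsClopen (OutS v ∩ U) := by
        rw [isClopen_iff_frontier_eq_empty]; exact h0
      rcases isClopen_iff.1 h1 with h2 | h2
      · rw [h2] at hne
        exact not_nonempty_empty hne
      · have h3 : v 0 ∈ OutS v ∩ U := by rw [h2]; exact mem_univ _
        exact h3.1.1 (curve_side v 0 (left_mem_segment _ _ _))
    obtain ⟨f, hf⟩ := hfr
    rw [hU'.frontier_eq] at hf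
    refine ⟨f, ?_, hf.1⟩
    by_contra hfc
    by_cases hfI : f ∈ OutS v
    · rcases hcov hfI with h1 | h1
      · exact hf.2 ⟨hfI, h1⟩
      · obtain ⟨z, hz1, hz2⟩ := mem_closure_iff.1 hf.1 _ hV' ⟨hfI, h1⟩
        exact hdis ⟨z, hz1.1, hz2.2, hz1.2⟩
    · obtain ⟨z, hz1, hz2⟩ := mem_closure_iff.1 hf.1 _ (isOpen_inside v) (inside_of_not_outs hfc hfI)
      exact hz2.1.2 hz1
  intro U V hU hV hcov hneU hneV
  by_contra hdis
  have h1 := key U V hU hV hcov hneU hdis
  have h2 := key V U hV hU (by rw [union_comm]; exact hcov) hneV (by rw [inter_comm V U]; exact hdis)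
  have hcover : curve v ⊆ closure (OutS v ∩ U) ∪ closure (OutS v ∩ V) := by
    intro w hw
    have h3 := (h.mem_closures hw).2
    rw [← closure_union, ← inter_union_distrib_left, inter_eq_left.2 hcov]
    exact h3
  obtain ⟨w, hw, hwU, hwV⟩ := isPreconnected_closed_iff.1 (isPreconnected_curve v) _ _ isClosed_closure
    isClosed_closure hcover h1 h2
  obtain ⟨r, hr, hpc⟩ := curve_nbhd_out h hw
  obtain ⟨x, hx1, hx2⟩ := mem_closure_iff.1 hwU _ Metric.isOpen_ball (Metric.mem_ball_self hr)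
  obtain ⟨y, hy1, hy2⟩ := mem_closure_iff.1 hwV _ Metric.isOpen_ball (Metric.mem_ball_self hr)
  obtain ⟨z, hz1, hz2⟩ := hpc U V hU hV (fun z hz => hcov hz.2) ⟨x, ⟨hx1, hx2.1⟩, hx2.2⟩
    ⟨y, ⟨hy1, hy2.1⟩, hy2.2⟩
  exact hdis ⟨z, hz1.2, hz2⟩


end Pool.Agent.Lib.H94D.Poly
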